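import Mathlib

/-!
# Definitions for MP_641f76_ag

Binomial edge ideals, their lexicographic initial ideals, symbolic powers of radical ideals,
Castelnuovo-Mumford regularity (through graded free resolutions), admissible paths.
-/

namespace Pool.Agent.Lib.MP_641f76_ag

open MvPolynomial

/-- The variable `x_i` of `S = K[x_1,...,x_n,y_1,...,y_n]`. The index type `Fin n ⊕ₗ Fin n` is
ordered by `x_1, x_2, ..., x_n, y_1, ..., y_n`. -/
abbrev xv {n : ℕ} (i : Fin n) : Fin n ⊕ₗ Fin n := toLex (Sum.inl i)

/-- The variable `y_i` of `S = K[x_1,...,x_n,y_1,...,y_n]`. -/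
abbrev yv {n : ℕ} (i : Fin n) : Fin n ⊕ₗ Fin n := toLex (Sum.inr i)

/-- The binomial edge ideal `J_G = (x_i y_j - x_j y_i : {i,j} ∈ E(G))`. -/
noncomputable def binomialEdgeIdeal (K : Type*) [Field K] {n : ℕ} (G : SimpleGraph (Fin n)) :
    Ideal (MvPolynomial (Fin n ⊕ₗ Fin n) K) :=
  Ideal.span {f | ∃ i j : Fin n, G.Adj i j ∧
    f = X (xv i) * X (yv j) - X (xv j) * X (yv i)}

/-- The initial ideal of an ideal `J` of `S = K[x_1,...,x_n,y_1,...,y_n]` for the lexicographic
monomial order with `x_1 > ... > x_n > y_1 > ... > y_n`: the ideal generated by the leading terms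
of the elements of `J`. -/
noncomputable def initialIdeal {K : Type*} [Field K] {n : ℕ}
    (J : Ideal (MvPolynomial (Fin n ⊕ₗ Fin n) K)) : Ideal (MvPolynomial (Fin n ⊕ₗ Fin n) K) :=
  Ideal.span ((MonomialOrder.lex (σ := Fin n ⊕ₗ Fin n)).leadingTerm '' (J : Set _))

/-- The symbolic power `I^(m)` of a radical ideal `I`: the intersection, over the minimal primes
`P` of `I`, of the ideals `P^(m) = {r : r q ∈ P^m for some q ∉ P}`. -/
def symbolicPower {R : Type*} [CommRing R] (I : Ideal R) (m : ℕ) : Ideal R where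
  carrier := {r | ∀ P ∈ I.minimalPrimes, ∃ q, q ∉ P ∧ r * q ∈ P ^ m}
  add_mem' {a b} ha hb P hP := by
    have := hP.1.1
    obtain ⟨q, hq, hq'⟩ := ha P hP
    obtain ⟨s, hs, hs'⟩ := hb P hP
    refine ⟨q * s, ?_, ?_⟩
    · intro h
      exact (this.mem_or_mem h).elim hq hs
    · have h1 : (a + b) * (q * s) = s * (a * q) + q * (b * s) := by ring
      rw [h1]
      exact add_mem (Ideal.mul_mem_left _ _ hq') (Ideal.mul_mem_left _ _ hs')
  zero_mem' P hP := by
    have := hP.1.1
    refine ⟨1, fun h => this.ne_top ((Ideal.eq_top_iff_one P).mpr h), ?_⟩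
    simp
  smul_mem' c a ha P hP := by
    obtain ⟨q, hq, hq'⟩ := ha P hP
    refine ⟨q, hq, ?_⟩
    rw [smul_eq_mul, mul_assoc]
    exact Ideal.mul_mem_left _ _ hq'

/-- A graded free resolution `... → F_1 → F_0 → I → 0` of an ideal `I` of the standard graded
polynomial ring `S = K[σ]`. The graded free module `F_i` has the basis `B i`, the basis element
`b` having degree `deg i b`; all the maps are homogeneous of degree `0`, that is, the
`c`-coordinate of `d i b` is homogeneous of degree `deg (i+1) b - deg i c`, and the image of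
`b ∈ B 0` in `I` is homogeneous of degree `deg 0 b`. -/
structure GradedFreeResolution {σ K : Type*} [Field K] (I : Ideal (MvPolynomial σ K)) where
  /-- the basis of `F_i` -/
  B : ℕ → Type
  /-- the degrees of the basis elements -/
  deg : ∀ i, B i → ℤ
  /-- the augmentation `F_0 → I ⊆ S` -/
  aug : (B 0 →₀ MvPolynomial σ K) →ₗ[MvPolynomial σ K] MvPolynomial σ K
  /-- the differential `F_{i+1} → F_i` -/
  d : ∀ i, (B (i + 1) →₀ MvPolynomial σ K) →ₗ[MvPolynomial σ K] (B i →₀ MvPolynomial σ K)
  aug_homogeneous : ∀ b, ∀ a ∈ (aug (Finsupp.single b 1)).support, (a.degree : ℤ) = deg 0 b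
  d_homogeneous : ∀ i b c, ∀ a ∈ (d i (Finsupp.single b 1) c).support,
    (a.degree : ℤ) = deg (i + 1) b - deg i c
  range_aug : LinearMap.range aug = I
  exact_zero : LinearMap.range (d 0) = LinearMap.ker aug
  exact_succ : ∀ i, LinearMap.range (d (i + 1)) = LinearMap.ker (d i)

/-- The Castelnuovo-Mumford regularity of an ideal `I` of the standard graded polynomial ring
`S = K[σ]`: the least `r` such that `I` has a graded free resolution `F` in which, for every `i`,
the module `F_i` is generated in degrees `≤ r + i`. -/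
noncomputable def regularity {σ K : Type*} [Field K] (I : Ideal (MvPolynomial σ K)) : EReal :=
  ⨅ r ∈ {r : ℤ | ∃ F : GradedFreeResolution I, ∀ i, ∀ b : F.B i, F.deg i b ≤ r + i},
    ((r : ℝ) : EReal)

/-- `i, l, j` is a path of `G`: the vertices of the list `i :: (l ++ [j])` are distinct and
consecutive ones are adjacent. -/
def IsPathThrough {n : ℕ} (G : SimpleGraph (Fin n)) (i : Fin n) (l : List (Fin n)) (j : Fin n) :
    Prop :=
  (i :: (l ++ [j])).Nodup ∧ (i :: (l ++ [j])).IsChain G.Adj

/-- `i, l, j` is an admissible path of the labelled graph `G` from `i` to `j`. -/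
structure IsAdmissiblePath {n : ℕ} (G : SimpleGraph (Fin n)) (i : Fin n) (l : List (Fin n))
    (j : Fin n) : Prop where
  /-- `i < j` -/
  lt : i < j
  /-- it is a path -/
  path : IsPathThrough G i l j
  /-- every interior vertex `v` satisfies `v < i` or `v > j` -/
  outside : ∀ v ∈ l, v < i ∨ j < v
  /-- no proper subset of the interior vertices is the set of interior vertices of a path
  from `i` to `j` -/
  minimal : ∀ l' : List (Fin n), (∀ v ∈ l', v ∈ l) → (∃ v ∈ l, v ∉ l') → ¬ IsPathThrough G i l' j

/-- `ℓ_<`: the largest length (number of vertices) of an admissible path of `G`. -/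
noncomputable def admissibleLength {n : ℕ} (G : SimpleGraph (Fin n)) : ℕ :=
  sSup {r | ∃ i l j, IsAdmissiblePath G i l j ∧ r = l.length + 2}

end Pool.Agent.Lib.MP_641f76_ag
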