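import Mathlib
import Pool.Agent.Lib.MP_641f76_ag.Defs

/-!
# The graph on 8 vertices, and its longest admissible path
-/

namespace Pool.Agent.Lib.MP_641f76_ag

/-- an admissible path has no shortcut -/
lemma IsAdmissiblePath.not_adj {n : ℕ} {G : SimpleGraph (Fin n)} {i j : Fin n} {l : List (Fin n)}
    (h : IsAdmissiblePath G i l j) (p : List (Fin n)) (a c : Fin n) (r : List (Fin n)) (b : Fin n)
    (s : List (Fin n)) (hp : i :: (l ++ [j]) = p ++ a :: c :: (r ++ b :: s)) : ¬ G.Adj a b := by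
  intro hab
  obtain ⟨hnd, hch⟩ := h.path
  -- the last vertex
  have hlast : ∃ t, b :: s = t ++ [j] := by
    have h1 : (b :: s) ≠ [] := by simp
    refine ⟨(b :: s).dropLast, ?_⟩
    have h2 : (b :: s).getLast h1 = j := by
      have h3 : (i :: (l ++ [j])).getLast (by simp) = j := by simp
      have h4 : (p ++ a :: c :: (r ++ b :: s)).getLast (by simp) = (b :: s).getLast h1 := by
        simp
      rw [← h4, ← h3]
      congr 1
      exact hp.symm
    rw [← h2]
    exact (List.dropLast_append_getLast h1).symm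
  obtain ⟨t, ht⟩ := hlast
  -- the new path
  have hnew : ∃ l', i :: (l' ++ [j]) = p ++ a :: b :: s ∧ (∀ v ∈ l', v ∈ l) ∧ c ∈ l ∧ c ∉ l' := by
    rw [hp] at hnd
    cases p with
    | nil =>
      simp only [List.nil_append, List.cons.injEq] at hp
      obtain ⟨rfl, hp⟩ := hp
      rw [ht] at hp ⊢
      refine ⟨t, by simp, ?_⟩
      have hl : l = c :: (r ++ t) := by
        have : l ++ [j] = (c :: (r ++ t)) ++ [j] := by rw [hp]; simp
        exact List.append_cancel_right this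
      rw [ht] at hnd
      simp only [List.nil_append] at hnd
      refine ⟨?_, ?_, ?_⟩
      · intro v hv
        rw [hl]
        simp [hv]
      · rw [hl]; simp
      · intro hc
        have h5 := (List.nodup_cons.mp hnd).2
        have h6 := (List.nodup_cons.mp h5).1
        apply h6
        simp [hc]
    | cons i' p' =>
      simp only [List.cons_append, List.cons.injEq] at hp
      obtain ⟨rfl, hp⟩ := hp
      rw [ht] at hp ⊢
      refine ⟨p' ++ a :: t, by simp, ?_⟩
      have hl : l = p' ++ a :: c :: (r ++ t) := by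
        have : l ++ [j] = (p' ++ a :: c :: (r ++ t)) ++ [j] := by rw [hp]; simp
        exact List.append_cancel_right this
      rw [ht] at hnd
      have hnd' : (p' ++ a :: c :: (r ++ (t ++ [j]))).Nodup := by
        simp only [List.cons_append] at hnd
        exact (List.nodup_cons.mp hnd).2
      refine ⟨?_, ?_, ?_⟩
      · intro v hv
        rw [hl]
        simp only [List.mem_append, List.mem_cons] at hv ⊢
        tauto
      · rw [hl]; simp
      · intro hc
        rw [List.nodup_append] at hnd'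
        obtain ⟨_, h2, h3⟩ := hnd'
        simp only [List.mem_append, List.mem_cons] at hc
        rcases hc with hc | hc | hc
        · exact h3 c hc c (by simp) rfl
        · have := (List.nodup_cons.mp h2).1
          apply this
          simp [hc]
        · have := (List.nodup_cons.mp (List.nodup_cons.mp h2).2).1
          apply this
          simp [hc]
  obtain ⟨l', hl', hsub, hcl, hcl'⟩ := hnew
  apply h.minimal l' hsub ⟨c, hcl, hcl'⟩
  unfold IsPathThrough
  rw [hl']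
  rw [hp] at hnd hch
  constructor
  · refine List.Nodup.sublist ?_ hnd
    apply List.Sublist.append_left
    apply List.Sublist.cons_cons
    apply List.Sublist.cons
    exact List.sublist_append_right r (b :: s)
  · rw [List.isChain_append] at hch ⊢
    obtain ⟨h1, h2, h3⟩ := hch
    refine ⟨h1, ?_, ?_⟩
    · rw [List.isChain_cons_cons]
      refine ⟨hab, ?_⟩
      have h4 : (a :: c :: r ++ b :: s).IsChain G.Adj := by simpa using h2
      exact (List.isChain_append.mp h4).2.1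
    · intro x hx y hy
      apply h3 x hx y
      simpa using hy

/-- the edges of the graph `G8` on `{0, ..., 7}` -/
def edges8 : List (ℕ × ℕ) :=
  [(0, 1), (0, 6), (0, 7), (1, 7), (2, 4), (2, 5), (2, 6), (3, 5), (5, 7)]

/-- the graph `G8` on `{0, ..., 7}` with the edges
`01, 06, 07, 17, 24, 25, 26, 35, 57` -/
def G8 : SimpleGraph (Fin 8) where
  Adj i j := (i.val, j.val) ∈ edges8 ∨ (j.val, i.val) ∈ edges8
  symm := ⟨fun _ _ h => h.symm⟩
  loopless := ⟨by decide⟩

instance : DecidableRel G8.Adj := fun i j =>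
  inferInstanceAs (Decidable ((i.val, j.val) ∈ edges8 ∨ (j.val, i.val) ∈ edges8))

set_option synthInstance.maxSize 100000 in
set_option synthInstance.maxHeartbeats 400000 in
lemma no_length_three : ∀ i v1 : Fin 8, G8.Adj i v1 → ∀ v2, G8.Adj v1 v2 → i ≠ v2 →
    ¬ G8.Adj i v2 → ∀ v3, G8.Adj v2 v3 → i ≠ v3 → v1 ≠ v3 → ¬ G8.Adj i v3 → ¬ G8.Adj v1 v3 →
    ∀ j, G8.Adj v3 j → i < j → ¬ G8.Adj i j → ¬ G8.Adj v1 j → ¬ G8.Adj v2 j →
    (v1 < i ∨ j < v1) → (v2 < i ∨ j < v2) → (v3 < i ∨ j < v3) → False := by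
  decide +kernel

set_option synthInstance.maxSize 100000 in
set_option synthInstance.maxHeartbeats 400000 in
lemma no_length_four : ∀ i v1 : Fin 8, G8.Adj i v1 → ∀ v2, G8.Adj v1 v2 → i ≠ v2 →
    ¬ G8.Adj i v2 → ∀ v3, G8.Adj v2 v3 → i ≠ v3 → v1 ≠ v3 → ¬ G8.Adj i v3 → ¬ G8.Adj v1 v3 →
    ∀ v4, G8.Adj v3 v4 → i ≠ v4 → v1 ≠ v4 → v2 ≠ v4 → ¬ G8.Adj i v4 → ¬ G8.Adj v1 v4 →
    ¬ G8.Adj v2 v4 →
    ∀ j, G8.Adj v4 j → i < j → ¬ G8.Adj i j → ¬ G8.Adj v1 j → ¬ G8.Adj v2 j → ¬ G8.Adj v3 j →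
    (v1 < i ∨ j < v1) → (v2 < i ∨ j < v2) → (v3 < i ∨ j < v3) → (v4 < i ∨ j < v4) → False := by
  decide +kernel

set_option synthInstance.maxSize 100000 in
set_option synthInstance.maxHeartbeats 400000 in
lemma no_length_five : ∀ i v1 : Fin 8, G8.Adj i v1 → ∀ v2, G8.Adj v1 v2 → i ≠ v2 →
    ¬ G8.Adj i v2 → ∀ v3, G8.Adj v2 v3 → i ≠ v3 → v1 ≠ v3 → ¬ G8.Adj i v3 → ¬ G8.Adj v1 v3 →
    ∀ v4, G8.Adj v3 v4 → i ≠ v4 → v1 ≠ v4 → v2 ≠ v4 → ¬ G8.Adj i v4 → ¬ G8.Adj v1 v4 →
    ¬ G8.Adj v2 v4 →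
    ∀ v5, G8.Adj v4 v5 → i ≠ v5 → v1 ≠ v5 → v2 ≠ v5 → v3 ≠ v5 → ¬ G8.Adj i v5 →
    ¬ G8.Adj v1 v5 → ¬ G8.Adj v2 v5 → ¬ G8.Adj v3 v5 →
    ∀ j, i < j → ¬ G8.Adj i j → ¬ G8.Adj v1 j → ¬ G8.Adj v2 j → ¬ G8.Adj v3 j →
    (v1 < i ∨ j < v1) → (v2 < i ∨ j < v2) → (v3 < i ∨ j < v3) → (v4 < i ∨ j < v4) →
    (v5 < i ∨ j < v5) → False := by
  decide +kernel

lemma length_le (i : Fin 8) (l : List (Fin 8)) (j : Fin 8) (h : IsAdmissiblePath G8 i l j) :
    l.length ≤ 2 := by
  obtain ⟨hnd, hch⟩ := h.path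
  have hlt := h.lt
  have ho := h.outside
  rcases l with _ | ⟨v1, _ | ⟨v2, _ | ⟨v3, _ | ⟨v4, _ | ⟨v5, l⟩⟩⟩⟩⟩
  · simp
  · simp
  · simp
  · exfalso
    simp only [List.cons_append, List.nil_append, List.nodup_cons, List.mem_cons,
      List.not_mem_nil, or_false, not_or, List.isChain_cons_cons] at hnd hch
    exact no_length_three i v1 hch.1 v2 hch.2.1 (by tauto)
      (h.not_adj [] i v1 [] v2 [v3, j] rfl) v3 hch.2.2.1 (by tauto) (by tauto)
      (h.not_adj [] i v1 [v2] v3 [j] rfl) (h.not_adj [i] v1 v2 [] v3 [j] rfl) j hch.2.2.2.1 hlt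
      (h.not_adj [] i v1 [v2, v3] j [] rfl) (h.not_adj [i] v1 v2 [v3] j [] rfl)
      (h.not_adj [i, v1] v2 v3 [] j [] rfl) (ho v1 (by simp)) (ho v2 (by simp)) (ho v3 (by simp))
  · exfalso
    simp only [List.cons_append, List.nil_append, List.nodup_cons, List.mem_cons,
      List.not_mem_nil, or_false, not_or, List.isChain_cons_cons] at hnd hch
    exact no_length_four i v1 hch.1 v2 hch.2.1 (by tauto)
      (h.not_adj [] i v1 [] v2 [v3, v4, j] rfl) v3 hch.2.2.1 (by tauto) (by tauto)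
      (h.not_adj [] i v1 [v2] v3 [v4, j] rfl) (h.not_adj [i] v1 v2 [] v3 [v4, j] rfl)
      v4 hch.2.2.2.1 (by tauto) (by tauto) (by tauto)
      (h.not_adj [] i v1 [v2, v3] v4 [j] rfl) (h.not_adj [i] v1 v2 [v3] v4 [j] rfl)
      (h.not_adj [i, v1] v2 v3 [] v4 [j] rfl) j hch.2.2.2.2.1 hlt
      (h.not_adj [] i v1 [v2, v3, v4] j [] rfl) (h.not_adj [i] v1 v2 [v3, v4] j [] rfl)
      (h.not_adj [i, v1] v2 v3 [v4] j [] rfl) (h.not_adj [i, v1, v2] v3 v4 [] j [] rfl)
      (ho v1 (by simp)) (ho v2 (by simp)) (ho v3 (by simp)) (ho v4 (by simp))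
  · exfalso
    simp only [List.cons_append, List.nodup_cons, List.mem_cons, not_or,
      List.isChain_cons_cons] at hnd hch
    exact no_length_five i v1 hch.1 v2 hch.2.1 (by tauto)
      (h.not_adj [] i v1 [] v2 (v3 :: v4 :: v5 :: (l ++ [j])) rfl) v3 hch.2.2.1
      (by tauto) (by tauto)
      (h.not_adj [] i v1 [v2] v3 (v4 :: v5 :: (l ++ [j])) rfl)
      (h.not_adj [i] v1 v2 [] v3 (v4 :: v5 :: (l ++ [j])) rfl)
      v4 hch.2.2.2.1 (by tauto) (by tauto) (by tauto)
      (h.not_adj [] i v1 [v2, v3] v4 (v5 :: (l ++ [j])) rfl)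
      (h.not_adj [i] v1 v2 [v3] v4 (v5 :: (l ++ [j])) rfl)
      (h.not_adj [i, v1] v2 v3 [] v4 (v5 :: (l ++ [j])) rfl)
      v5 hch.2.2.2.2.1 (by tauto) (by tauto) (by tauto) (by tauto)
      (h.not_adj [] i v1 [v2, v3, v4] v5 (l ++ [j]) rfl)
      (h.not_adj [i] v1 v2 [v3, v4] v5 (l ++ [j]) rfl)
      (h.not_adj [i, v1] v2 v3 [v4] v5 (l ++ [j]) rfl)
      (h.not_adj [i, v1, v2] v3 v4 [] v5 (l ++ [j]) rfl)
      j hlt
      (h.not_adj [] i v1 (v2 :: v3 :: v4 :: v5 :: l) j [] rfl)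
      (h.not_adj [i] v1 v2 (v3 :: v4 :: v5 :: l) j [] rfl)
      (h.not_adj [i, v1] v2 v3 (v4 :: v5 :: l) j [] rfl)
      (h.not_adj [i, v1, v2] v3 v4 (v5 :: l) j [] rfl)
      (ho v1 (by simp)) (ho v2 (by simp)) (ho v3 (by simp)) (ho v4 (by simp)) (ho v5 (by simp))

lemma admissible_3524 : IsAdmissiblePath G8 3 [5, 2] 4 where
  lt := by decide
  path := by
    unfold IsPathThrough
    decide
  outside := by decide
  minimal := by
    intro l' hsub hex hp
    obtain ⟨hnd, hch⟩ := hp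
    rcases l' with _ | ⟨a, _ | ⟨b, r⟩⟩
    · simp only [List.nil_append, List.isChain_cons_cons] at hch
      exact absurd hch.1 (by decide)
    · simp only [List.cons_append, List.nil_append, List.isChain_cons_cons] at hch
      have h1 := hch.1
      have h2 := hch.2.1
      revert h1 h2
      revert a
      decide
    · obtain ⟨v, hv, hv'⟩ := hex
      have ha := hsub a (by simp)
      have hb := hsub b (by simp)
      have hab : a ≠ b := by
        simp only [List.cons_append, List.nodup_cons, List.mem_cons, not_or] at hnd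
        tauto
      simp only [List.mem_cons, not_or] at hv'
      have h1 := hv'.1
      have h2 := hv'.2.1
      simp only [List.mem_cons, List.not_mem_nil, or_false] at hv ha hb
      rcases hv with rfl | rfl <;> rcases ha with rfl | rfl <;> rcases hb with rfl | rfl <;>
        simp_all

/-- `ℓ_<(G8) = 4` -/
theorem admissibleLength_G8 : admissibleLength G8 = 4 := by
  unfold admissibleLength
  apply IsGreatest.csSup_eq
  constructor
  · exact ⟨3, [5, 2], 4, admissible_3524, rfl⟩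
  · rintro r ⟨i, l, j, h, rfl⟩
    have := length_le i l j h
    omega

end Pool.Agent.Lib.MP_641f76_ag
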