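import Mathlib
import Pool.Agent.Lib.MP_641f76_ag.Defs

/-!
# Monomials of paths lie in `in(J_G)`
-/

namespace Pool.Agent.Lib.MP_641f76_ag

open MvPolynomial

variable {n : ℕ} {K : Type*} [Field K]

variable (K) in
/-- the product of the variables of a list -/
noncomputable def prodVars (l : List (Fin n ⊕ₗ Fin n)) : MvPolynomial (Fin n ⊕ₗ Fin n) K :=
  (l.map X).prod

lemma prodVars_nil : prodVars K ([] : List (Fin n ⊕ₗ Fin n)) = 1 := by simp [prodVars]

lemma prodVars_cons (v : Fin n ⊕ₗ Fin n) (l : List (Fin n ⊕ₗ Fin n)) :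
    prodVars K (v :: l) = X v * prodVars K l := by simp [prodVars]

lemma prodVars_eq_monomial (l : List (Fin n ⊕ₗ Fin n)) :
    ∃ a, prodVars K l = monomial a (1 : K) := by
  induction l with
  | nil => exact ⟨0, by rw [prodVars_nil]; rfl⟩
  | cons v l ih =>
    obtain ⟨a, ha⟩ := ih
    refine ⟨Finsupp.single v 1 + a, ?_⟩
    rw [prodVars_cons, ha, X, monomial_mul, one_mul]

lemma path_mem (G : SimpleGraph (Fin n)) (z : Fin n → Fin n ⊕ₗ Fin n)
    (hz : ∀ v, z v = xv v ∨ z v = yv v) : ∀ (l : List (Fin n)) (i j : Fin n),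
    (i :: (l ++ [j])).IsChain G.Adj →
    prodVars K (l.map z) * (X (xv i) * X (yv j) - X (xv j) * X (yv i)) ∈
      binomialEdgeIdeal K G := by
  intro l
  induction l with
  | nil =>
    intro i j h
    have hij : G.Adj i j := by simpa using h
    rw [List.map_nil, prodVars_nil, one_mul]
    exact Ideal.subset_span ⟨i, j, hij, rfl⟩
  | cons v l ih =>
    intro i j h
    rw [List.cons_append, List.isChain_cons_cons] at h
    have h1 := ih v j h.2
    have h2 : X (xv i) * X (yv v) - X (xv v) * X (yv i) ∈ binomialEdgeIdeal K G :=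
      Ideal.subset_span ⟨i, v, h.1, rfl⟩
    rw [List.map_cons, prodVars_cons]
    rcases hz v with hv | hv
    · have h3 : X (z v) * prodVars K (l.map z) * (X (xv i) * X (yv j) - X (xv j) * X (yv i)) =
          X (xv i) * (prodVars K (l.map z) * (X (xv v) * X (yv j) - X (xv j) * X (yv v))) +
          (prodVars K (l.map z) * X (xv j)) * (X (xv i) * X (yv v) - X (xv v) * X (yv i)) := by
        rw [hv]; ring
      rw [h3]
      exact add_mem (Ideal.mul_mem_left _ _ h1) (Ideal.mul_mem_left _ _ h2)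
    · have h3 : X (z v) * prodVars K (l.map z) * (X (xv i) * X (yv j) - X (xv j) * X (yv i)) =
          X (yv i) * (prodVars K (l.map z) * (X (xv v) * X (yv j) - X (xv j) * X (yv v))) +
          (prodVars K (l.map z) * X (yv j)) * (X (xv i) * X (yv v) - X (xv v) * X (yv i)) := by
        rw [hv]; ring
      rw [h3]
      exact add_mem (Ideal.mul_mem_left _ _ h1) (Ideal.mul_mem_left _ _ h2)

lemma lex_lt_aux (a : (Fin n ⊕ₗ Fin n) →₀ ℕ) {i j : Fin n} (hij : i < j) :
    toLex (a + (Finsupp.single (xv j) 1 + Finsupp.single (yv i) 1)) <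
      toLex (a + (Finsupp.single (xv i) 1 + Finsupp.single (yv j) 1)) := by
  rw [Finsupp.Lex.lt_iff]
  have hxij : (xv j : Fin n ⊕ₗ Fin n) ≠ xv i := by
    intro h
    exact hij.ne (Sum.inl_injective (toLex.injective h)).symm
  refine ⟨xv i, ?_, ?_⟩
  · intro v hv
    simp only [ofLex_toLex]
    have h1 : v ≠ xv i := hv.ne
    have h2 : v ≠ xv j := by
      rintro rfl
      have : (j : Fin n) < i := Sum.Lex.inl_lt_inl_iff.mp hv
      exact absurd this (not_lt.mpr hij.le)
    have h3 : ∀ k : Fin n, v ≠ yv k := by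
      rintro k rfl
      exact absurd hv (not_lt.mpr (Sum.Lex.inl_lt_inr _ _).le)
    simp [h1.symm, h2.symm, (h3 _).symm]
  · simp only [ofLex_toLex]
    simp [hxij]

/-- the monomial of a path (with any choice of the variables of the interior vertices) lies in
`in(J_G)` -/
theorem gen_mem (G : SimpleGraph (Fin n)) (z : Fin n → Fin n ⊕ₗ Fin n)
    (hz : ∀ v, z v = xv v ∨ z v = yv v) (l : List (Fin n)) (i j : Fin n) (hij : i < j)
    (h : (i :: (l ++ [j])).IsChain G.Adj) :
    prodVars K (xv i :: yv j :: l.map z) ∈ initialIdeal (binomialEdgeIdeal K G) := by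
  classical
  obtain ⟨a, ha⟩ := prodVars_eq_monomial (K := K) (l.map z)
  have h1 := path_mem (K := K) G z hz l i j h
  have hm : ∀ p q : Fin n, prodVars K (l.map z) * (X (xv p) * X (yv q)) =
      monomial (a + (Finsupp.single (xv p) 1 + Finsupp.single (yv q) 1)) (1 : K) := by
    intro p q
    rw [ha, X, X, monomial_mul, monomial_mul]
    simp
  rw [mul_sub, hm, hm] at h1
  have hlt : (MonomialOrder.lex (σ := Fin n ⊕ₗ Fin n)).toSyn
      ((MonomialOrder.lex (σ := Fin n ⊕ₗ Fin n)).degree
        (monomial (a + (Finsupp.single (xv j) 1 + Finsupp.single (yv i) 1)) (1 : K))) <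
      (MonomialOrder.lex (σ := Fin n ⊕ₗ Fin n)).toSyn
      ((MonomialOrder.lex (σ := Fin n ⊕ₗ Fin n)).degree
        (monomial (a + (Finsupp.single (xv i) 1 + Finsupp.single (yv j) 1)) (1 : K))) := by
    rw [MonomialOrder.degree_monomial, MonomialOrder.degree_monomial, if_neg one_ne_zero,
      if_neg one_ne_zero]
    exact lex_lt_aux a hij
  have h2 := Ideal.subset_span (Set.mem_image_of_mem
    ((MonomialOrder.lex (σ := Fin n ⊕ₗ Fin n)).leadingTerm) h1)
  rw [MonomialOrder.leadingTerm, MonomialOrder.degree_sub_of_lt hlt,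
    MonomialOrder.leadingCoeff_sub_of_lt hlt, MonomialOrder.degree_monomial,
    if_neg one_ne_zero, MonomialOrder.leadingCoeff_monomial] at h2
  unfold initialIdeal
  rw [prodVars_cons, prodVars_cons]
  have h3 : X (xv i) * (X (yv j) * prodVars K (l.map z)) =
      monomial (a + (Finsupp.single (xv i) 1 + Finsupp.single (yv j) 1)) (1 : K) := by
    rw [← hm]; ring
  rw [h3]
  exact h2

end Pool.Agent.Lib.MP_641f76_ag
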