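import Mathlib
import Pool.Agent.Lib.MP_641f76_ag.Defs

/-!
# Symbolic powers of monomial primes, and a lower bound for the regularity
-/

namespace Pool.Agent.Lib.MP_641f76_ag

open MvPolynomial

variable {σ K : Type*} [Field K] [DecidableEq σ]

/-- the degree in the variables of `A` -/
def degA (A : Finset σ) (a : σ →₀ ℕ) : ℕ := ∑ v ∈ A, a v

omit [DecidableEq σ] in
lemma degA_add (A : Finset σ) (a b : σ →₀ ℕ) : degA A (a + b) = degA A a + degA A b := by
  simp [degA, Finset.sum_add_distrib]

lemma degA_single (A : Finset σ) (v : σ) : degA A (Finsupp.single v 1) = if v ∈ A then 1 else 0 := by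
  simp [degA, Finsupp.single_apply]

variable (K) in
/-- `X_v ↦ X_v T` for `v ∈ A`, `X_v ↦ X_v` otherwise -/
noncomputable def psi (A : Finset σ) : MvPolynomial σ K →+* Polynomial (MvPolynomial σ K) :=
  eval₂Hom (Polynomial.C.comp C) (fun v => if v ∈ A then Polynomial.monomial 1 (X v)
    else Polynomial.monomial 0 (X v))

lemma psi_monomial (A : Finset σ) (a : σ →₀ ℕ) (c : K) :
    psi K A (monomial a c) = Polynomial.monomial (degA A a) (monomial a c) := by
  induction a using Finsupp.induction_linear generalizing c with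
  | zero => simp [psi, degA]
  | add a b ha hb =>
    have h1 : monomial (a + b) c = monomial a c * monomial b (1 : K) := by
      rw [monomial_mul, mul_one]
    rw [h1, map_mul, ha, hb, Polynomial.monomial_mul_monomial, degA_add]
  | single v k =>
    induction k with
    | zero => simp [psi, degA]
    | succ k ih =>
      have h1 : monomial (Finsupp.single v (k + 1)) c = monomial (Finsupp.single v k) c *
          (X v : MvPolynomial σ K) := by
        rw [X, monomial_mul, mul_one, Finsupp.single_add]
      have h2 : psi K A (X v) = Polynomial.monomial (degA A (Finsupp.single v 1))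
          (X v : MvPolynomial σ K) := by
        rw [degA_single, psi, eval₂Hom_X']
        split_ifs <;> rfl
      have h3 : degA A (Finsupp.single v (k + 1)) =
          degA A (Finsupp.single v k) + degA A (Finsupp.single v 1) := by
        rw [Finsupp.single_add, degA_add]
      rw [h1, map_mul, ih, h2, Polynomial.monomial_mul_monomial, h3]

lemma coeff_psi (A : Finset σ) (f : MvPolynomial σ K) (j : ℕ) (a : σ →₀ ℕ) :
    coeff a ((psi K A f).coeff j) = if degA A a = j then coeff a f else 0 := by
  induction f using MvPolynomial.induction_on' with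
  | monomial b c =>
    rw [psi_monomial, Polynomial.coeff_monomial]
    by_cases hb : b = a
    · subst hb
      split_ifs <;> simp
    · rw [coeff_monomial, if_neg hb]
      split_ifs <;> simp [coeff_monomial, hb]
  | add p q hp hq =>
    rw [map_add, Polynomial.coeff_add, coeff_add, hp, hq, coeff_add]
    split_ifs <;> simp

lemma X_pow_dvd_psi_iff (A : Finset σ) (f : MvPolynomial σ K) (k : ℕ) :
    Polynomial.X ^ k ∣ psi K A f ↔ ∀ a ∈ f.support, k ≤ degA A a := by
  rw [Polynomial.X_pow_dvd_iff]
  constructor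
  · intro h a ha
    by_contra hlt
    push Not at hlt
    have h1 := h (degA A a) hlt
    have h2 := coeff_psi A f (degA A a) a
    rw [h1, if_pos rfl, coeff_zero] at h2
    exact (mem_support_iff.mp ha) h2.symm
  · intro h j hj
    ext a
    rw [coeff_psi, coeff_zero]
    split_ifs with hja
    · by_contra hne
      have := h a (mem_support_iff.mpr hne)
      omega
    · rfl

/-- the ideal generated by the variables of `A` -/
noncomputable abbrev varIdeal (K : Type*) [Field K] (A : Finset σ) : Ideal (MvPolynomial σ K) :=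
  Ideal.span (X '' (A : Set σ))

lemma mem_varIdeal_iff (A : Finset σ) (f : MvPolynomial σ K) :
    f ∈ varIdeal K A ↔ Polynomial.X ∣ psi K A f := by
  have h := X_pow_dvd_psi_iff A f 1
  rw [pow_one] at h
  rw [h, mem_ideal_span_X_image]
  constructor
  · intro h1 a ha
    obtain ⟨v, hv, hv'⟩ := h1 a ha
    unfold degA
    have : a v ≤ ∑ v ∈ A, a v := Finset.single_le_sum (f := fun v => a v) (fun _ _ => Nat.zero_le _) hv
    omega
  · intro h1 a ha
    by_contra hcon
    push Not at hcon
    have h2 := h1 a ha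
    have h3 : degA A a = 0 := Finset.sum_eq_zero (fun v hv => hcon v hv)
    omega

lemma varIdeal_eq_comap (A : Finset σ) :
    varIdeal K A = Ideal.comap (psi K A) (Ideal.span {Polynomial.X}) := by
  ext f
  rw [mem_varIdeal_iff, Ideal.mem_comap, Ideal.mem_span_singleton]

instance varIdeal_isPrime (A : Finset σ) : (varIdeal K A).IsPrime := by
  rw [varIdeal_eq_comap]
  have : (Ideal.span {(Polynomial.X : Polynomial (MvPolynomial σ K))}).IsPrime := by
    rw [Ideal.span_singleton_prime Polynomial.X_ne_zero]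
    exact Polynomial.prime_X
  exact Ideal.comap_isPrime _ _

lemma degA_of_mul_mem_pow (A : Finset σ) (f q : MvPolynomial σ K) (k : ℕ)
    (hq : q ∉ varIdeal K A) (h : f * q ∈ varIdeal K A ^ k) : ∀ a ∈ f.support, k ≤ degA A a := by
  rw [← X_pow_dvd_psi_iff]
  have h1 : Polynomial.X ^ k ∣ psi K A (f * q) := by
    have h2 : varIdeal K A ^ k ≤ Ideal.comap (psi K A) (Ideal.span {Polynomial.X} ^ k) := by
      rw [← Ideal.map_le_iff_le_comap, Ideal.map_pow]
      apply Ideal.pow_right_mono
      rw [Ideal.map_le_iff_le_comap, ← varIdeal_eq_comap]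
    have h3 := h2 h
    rw [Ideal.mem_comap, Ideal.span_singleton_pow, Ideal.mem_span_singleton] at h3
    exact h3
  rw [map_mul] at h1
  rw [mem_varIdeal_iff] at hq
  exact Polynomial.prime_X.pow_dvd_of_dvd_mul_right k hq h1

omit [DecidableEq σ] in
/-- a prime containing a product of variables contains one of them -/
lemma exists_mem_of_prod (P : Ideal (MvPolynomial σ K)) (hP : P.IsPrime) (l : List σ)
    (h : (l.map X).prod ∈ P) : ∃ v ∈ l, X v ∈ P := by
  induction l with
  | nil =>
    simp only [List.map_nil, List.prod_nil] at h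
    exact absurd ((Ideal.eq_top_iff_one P).mpr h) hP.ne_top
  | cons u l ih =>
    rw [List.map_cons, List.prod_cons] at h
    rcases hP.mem_or_mem h with h1 | h1
    · exact ⟨u, by simp, h1⟩
    · obtain ⟨v, hv, hv'⟩ := ih h1
      exact ⟨v, by simp [hv], hv'⟩

lemma X_mem_varIdeal_iff (A : Finset σ) (v : σ) : (X v : MvPolynomial σ K) ∈ varIdeal K A ↔ v ∈ A := by
  rw [mem_ideal_span_X_image]
  constructor
  · intro h
    obtain ⟨i, hi, hi'⟩ := h (Finsupp.single v 1) (by rw [mem_support_iff, X, coeff_monomial]; simp)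
    rw [Finsupp.single_apply] at hi'
    split_ifs at hi' with hvi
    · rw [hvi]; exact hi
    · exact absurd rfl hi'
  · intro h m hm
    rw [X] at hm
    have := support_monomial_subset hm
    rw [Finset.mem_singleton] at this
    subst this
    exact ⟨v, h, by simp⟩

/-- a criterion for a monomial prime to be a minimal prime -/
lemma varIdeal_mem_minimalPrimes (I : Ideal (MvPolynomial σ K)) (A : Finset σ)
    (hI : I ≤ varIdeal K A)
    (h : ∀ v ∈ A, ∃ l : List σ, (l.map X).prod ∈ I ∧ ∀ u ∈ l, u ∈ A → u = v) :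
    varIdeal K A ∈ I.minimalPrimes := by
  refine ⟨⟨inferInstance, hI⟩, ?_⟩
  rintro P ⟨hP, hIP⟩ hle
  rw [Ideal.span_le]
  rintro _ ⟨v, hv, rfl⟩
  obtain ⟨l, hl, hl'⟩ := h v hv
  obtain ⟨u, hu, hu'⟩ := exists_mem_of_prod P hP l (hIP hl)
  have huA : u ∈ A := (X_mem_varIdeal_iff A u).mp (hle hu')
  rw [← hl' u hu huA]
  exact hu'

/-- the exponent of `w^m` with `w` the product of the variables of `W` -/
noncomputable def wexp (W : Finset σ) (m : ℕ) : σ →₀ ℕ := ∑ v ∈ W, Finsupp.single v m

lemma wexp_apply (W : Finset σ) (m : ℕ) (v : σ) : wexp W m v = if v ∈ W then m else 0 := by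
  simp [wexp, Finsupp.finsetSum_apply, Finsupp.single_apply]

lemma wexp_mem (I : Ideal (MvPolynomial σ K)) (W : Finset σ) (hW : W.Nonempty)
    (h : ∀ a ∈ W, ∃ l : List σ, (l.map X).prod ∈ I ∧ ∀ u ∈ l, u ∈ W ∧ u ≠ a) (m : ℕ) :
    (monomial (wexp W m) (1 : K)) ∈ symbolicPower I (2 * m) := by
  intro P hP
  have hPr := hP.1.1
  have hIP := hP.1.2
  obtain ⟨z, hz⟩ := hW
  obtain ⟨l, hl, hl'⟩ := h z hz
  obtain ⟨a, ha, haP⟩ := exists_mem_of_prod P hPr l (hIP hl)
  have haW := (hl' a ha).1
  obtain ⟨l2, hl2, hl2'⟩ := h a haW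
  obtain ⟨b, hb, hbP⟩ := exists_mem_of_prod P hPr l2 (hIP hl2)
  have hbW := (hl2' b hb).1
  have hba := (hl2' b hb).2
  refine ⟨1, fun h => hPr.ne_top ((Ideal.eq_top_iff_one P).mpr h), ?_⟩
  rw [mul_one]
  have h1 : wexp W m = Finsupp.single a m + (Finsupp.single b m + wexp ((W.erase a).erase b) m) := by
    unfold wexp
    rw [← Finset.add_sum_erase W _ haW, ← Finset.add_sum_erase (W.erase a) _
      (Finset.mem_erase.mpr ⟨hba, hbW⟩)]
  have h2 : monomial (wexp W m) (1 : K) = (X a ^ m * X b ^ m) *
      monomial (wexp ((W.erase a).erase b) m) 1 := by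
    rw [h1, X_pow_eq_monomial, X_pow_eq_monomial, monomial_mul, monomial_mul]
    simp [add_assoc]
  rw [h2]
  apply Ideal.mul_mem_right
  rw [two_mul, pow_add]
  exact Ideal.mul_mem_mul (Ideal.pow_mem_pow haP m) (Ideal.pow_mem_pow hbP m)

omit [DecidableEq σ] in
/-- elements of the image of the augmentation -/
lemma exists_basis_of_range {I : Ideal (MvPolynomial σ K)} (F : GradedFreeResolution I)
    (f : MvPolynomial σ K) (hf : f ∈ I) (e : σ →₀ ℕ) (he : coeff e f ≠ 0) :
    ∃ b : F.B 0, ∃ a ∈ (F.aug (Finsupp.single b 1)).support, a ≤ e := by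
  classical
  rw [← F.range_aug] at hf
  obtain ⟨x, rfl⟩ := hf
  by_contra hcon
  push Not at hcon
  apply he
  have h1 : F.aug x = x.sum (fun b c => c * F.aug (Finsupp.single b 1)) := by
    conv_lhs => rw [← Finsupp.sum_single x]
    rw [Finsupp.sum, map_sum, Finsupp.sum]
    apply Finset.sum_congr rfl
    intro b _
    rw [← smul_eq_mul, ← map_smul, Finsupp.smul_single, smul_eq_mul, mul_one]
  rw [h1, Finsupp.sum, coeff_sum]
  apply Finset.sum_eq_zero
  intro b _
  rw [coeff_mul]
  apply Finset.sum_eq_zero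
  rintro ⟨p, q⟩ hpq
  rw [Finset.HasAntidiagonal.mem_antidiagonal] at hpq
  simp only at hpq ⊢
  by_cases hq : q ∈ (F.aug (Finsupp.single b 1)).support
  · exfalso
    apply hcon b q hq
    rw [← hpq]
    exact le_add_self
  · rw [notMem_support_iff.mp hq, mul_zero]

omit [DecidableEq σ] in
/-- the element `aug b` of the ideal -/
lemma aug_mem {I : Ideal (MvPolynomial σ K)} (F : GradedFreeResolution I) (b : F.B 0) :
    F.aug (Finsupp.single b 1) ∈ I := by
  have h : F.aug (Finsupp.single b 1) ∈ LinearMap.range F.aug := ⟨_, rfl⟩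
  rw [F.range_aug] at h
  exact h

/-- **Lower bound for the regularity of symbolic powers.** -/
theorem le_regularity [Fintype σ] (I : Ideal (MvPolynomial σ K)) (W : Finset σ) (hW : W.Nonempty)
    (h : ∀ a ∈ W, ∃ l : List σ, (l.map X).prod ∈ I ∧ ∀ u ∈ l, u ∈ W ∧ u ≠ a)
    (hQ : ∀ z ∈ W, ∃ A : Finset σ, z ∈ A ∧ (A ∩ W).card = 2 ∧ I ≤ varIdeal K A ∧
      ∀ v ∈ A, ∃ l : List σ, (l.map X).prod ∈ I ∧ ∀ u ∈ l, u ∈ A → u = v) (m : ℕ) :
    (((W.card * m : ℕ) : ℝ) : EReal) ≤ regularity (symbolicPower I (2 * m)) := by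
  unfold regularity
  refine le_iInf₂ ?_
  rintro r ⟨F, hF⟩
  obtain ⟨b, a, ha, hae⟩ := exists_basis_of_range F _ (wexp_mem I W hW h m) (wexp W m)
    (by rw [coeff_monomial, if_pos rfl]; exact one_ne_zero)
  have hmem := aug_mem F b
  -- all the exponents of `a` are maximal
  have haW : a = wexp W m := by
    have hle : ∀ v, a v ≤ if v ∈ W then m else 0 := by
      intro v
      rw [← wexp_apply]
      exact hae v
    ext z
    rw [wexp_apply]
    by_cases hz : z ∈ W
    · rw [if_pos hz]
      obtain ⟨A, hzA, hcard, hIA, hmin⟩ := hQ z hz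
      have hminP := varIdeal_mem_minimalPrimes I A hIA hmin
      obtain ⟨q, hq, hq'⟩ := hmem _ hminP
      have hdeg := degA_of_mul_mem_pow A _ q (2 * m) hq hq' a ha
      have h1 : degA A a ≤ ∑ v ∈ A ∩ W, a v := by
        unfold degA
        rw [← Finset.sum_inter_add_sum_sdiff A W]
        have : ∑ v ∈ A \ W, a v = 0 := by
          apply Finset.sum_eq_zero
          intro v hv
          have := hle v
          rw [if_neg (Finset.mem_sdiff.mp hv).2] at this
          omega
        omega
      have hzAW : z ∈ A ∩ W := Finset.mem_inter.mpr ⟨hzA, hz⟩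
      have h2 : ∑ v ∈ A ∩ W, a v = a z + ∑ v ∈ (A ∩ W).erase z, a v :=
        (Finset.add_sum_erase _ _ hzAW).symm
      have h3 : ∑ v ∈ (A ∩ W).erase z, a v ≤ ((A ∩ W).erase z).card • m := by
        apply Finset.sum_le_card_nsmul
        intro v hv
        have := hle v
        rw [if_pos (Finset.mem_inter.mp (Finset.mem_of_mem_erase hv)).2] at this
        exact this
      rw [Finset.card_erase_of_mem hzAW, hcard] at h3
      have h4 := hle z
      rw [if_pos hz] at h4
      simp only [smul_eq_mul] at h3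
      omega
    · rw [if_neg hz]
      have := hle z
      rw [if_neg hz] at this
      omega
  have hdeg := F.aug_homogeneous b a ha
  have hr := hF 0 b
  rw [← hdeg, haW] at hr
  have h5 : (wexp W m).degree = W.card * m := by
    rw [Finsupp.degree_eq_sum]
    simp only [wexp_apply]
    rw [Finset.sum_ite_mem, Finset.univ_inter, Finset.sum_const, smul_eq_mul]
  rw [h5] at hr
  have hr' : ((W.card * m : ℕ) : ℤ) ≤ r := by simpa using hr
  have hr'' : ((W.card * m : ℕ) : ℝ) ≤ (r : ℝ) := by exact_mod_cast hr'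
  exact_mod_cast hr''

end Pool.Agent.Lib.MP_641f76_ag
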