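import Mathlib
import Pool.Agent.Lib.MP_641f76_ag.Defs

/-!
# `in(J_G)` is contained in the monomial primes attached to cut sets
-/

namespace Pool.Agent.Lib.MP_641f76_ag

open MvPolynomial

section lam

variable {σ K : Type*} [Field K]

open Classical in
/-- the sum of the coefficients at exponents in `F` -/
noncomputable def lam (F : Set (σ →₀ ℕ)) : MvPolynomial σ K →ₗ[K] K :=
  (basisMonomials σ K).constr K (fun a => if a ∈ F then (1 : K) else 0)

open Classical in
lemma lam_monomial (F : Set (σ →₀ ℕ)) (a : σ →₀ ℕ) (c : K) :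
    lam F (monomial a c) = if a ∈ F then c else 0 := by
  have h1 : monomial a c = c • (basisMonomials σ K a) := by
    simp [smul_monomial]
  rw [h1, map_smul, lam, Module.Basis.constr_basis]
  simp

lemma lam_eq_coeff (F : Set (σ →₀ ℕ)) (f : MvPolynomial σ K) (μ : σ →₀ ℕ) (hμ : μ ∈ F)
    (h : ∀ a ∈ f.support, a ∈ F → a = μ) : lam F f = coeff μ f := by
  classical
  conv_lhs => rw [f.as_sum]
  rw [map_sum]
  by_cases hs : μ ∈ f.support
  · rw [Finset.sum_eq_single μ]
    · rw [lam_monomial, if_pos hμ]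
    · intro a ha hne
      rw [lam_monomial, if_neg]
      intro haF
      exact hne (h a ha haF)
    · intro h'
      exact absurd hs h'
  · rw [notMem_support_iff.mp hs]
    apply Finset.sum_eq_zero
    intro a ha
    rw [lam_monomial, if_neg]
    intro haF
    exact hs (h a ha haF ▸ ha)

end lam

variable {n : ℕ}

/-- the variables of the monomial prime attached to a set `S` and to the function `cc` which
sends a vertex outside `S` to the chosen vertex of its component of `G - S` -/
def primeVars (S : Set (Fin n)) (cc : Fin n → Fin n) : Set (Fin n ⊕ₗ Fin n) :=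
  {v | ∃ i, (v = xv i ∧ (i ∈ S ∨ i < cc i)) ∨ (v = yv i ∧ (i ∈ S ∨ cc i < i))}

/-- the fibre of an exponent under the parametrisation of the prime `P_S(G)` -/
def fib (S : Set (Fin n)) (cc : Fin n → Fin n) (μ : (Fin n ⊕ₗ Fin n) →₀ ℕ) :
    Set ((Fin n ⊕ₗ Fin n) →₀ ℕ) :=
  {a | (∀ i ∈ S, a (xv i) = 0 ∧ a (yv i) = 0) ∧
    (∀ i, a (xv i) + a (yv i) = μ (xv i) + μ (yv i)) ∧
    (∀ L, ∑ i with cc i = L, a (xv i) = ∑ i with cc i = L, μ (xv i))}

lemma xv_ne_yv (i j : Fin n) : (xv i : Fin n ⊕ₗ Fin n) ≠ yv j := by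
  intro h
  exact Sum.inl_ne_inr (toLex.injective h)

lemma xv_inj {i j : Fin n} : (xv i : Fin n ⊕ₗ Fin n) = xv j ↔ i = j :=
  ⟨fun h => Sum.inl_injective (toLex.injective h), fun h => h ▸ rfl⟩

lemma yv_inj {i j : Fin n} : (yv i : Fin n ⊕ₗ Fin n) = yv j ↔ i = j :=
  ⟨fun h => Sum.inr_injective (toLex.injective h), fun h => h ▸ rfl⟩

lemma fib_swap_aux (S : Set (Fin n)) (cc : Fin n → Fin n) (μ b : (Fin n ⊕ₗ Fin n) →₀ ℕ)
    (i j : Fin n) (h : i ∈ S ∨ j ∈ S ∨ cc i = cc j)
    (hb : b + Finsupp.single (xv i) 1 + Finsupp.single (yv j) 1 ∈ fib S cc μ) :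
    b + Finsupp.single (xv j) 1 + Finsupp.single (yv i) 1 ∈ fib S cc μ := by
  classical
  obtain ⟨h1, h2, h3⟩ := hb
  have hiS : i ∉ S := by
    intro hi
    have := (h1 i hi).1
    simp at this
  have hjS : j ∉ S := by
    intro hj
    have := (h1 j hj).2
    simp at this
  have hcc : cc i = cc j := by tauto
  refine ⟨?_, ?_, ?_⟩
  · intro k hk
    have hki : i ≠ k := fun h => hiS (h ▸ hk)
    have hkj : j ≠ k := fun h => hjS (h ▸ hk)
    have := h1 k hk
    simp [hki, hkj] at this ⊢
    exact this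
  · intro k
    have := h2 k
    simp [Finsupp.single_apply] at this ⊢
    omega
  · intro L
    have := h3 L
    rw [← this]
    simp only [Finsupp.add_apply, Finset.sum_add_distrib]
    congr 1
    · congr 1
      simp only [Finsupp.single_apply, EmbeddingLike.apply_eq_iff_eq, Sum.inl.injEq]
      rw [Finset.sum_ite_eq, Finset.sum_ite_eq]
      simp [hcc]
    · simp

lemma lam_gen {K : Type*} [Field K] (S : Set (Fin n)) (cc : Fin n → Fin n)
    (μ : (Fin n ⊕ₗ Fin n) →₀ ℕ) (i j : Fin n) (h : i ∈ S ∨ j ∈ S ∨ cc i = cc j)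
    (g : MvPolynomial (Fin n ⊕ₗ Fin n) K) :
    lam (fib S cc μ) (g * (X (xv i) * X (yv j) - X (xv j) * X (yv i))) = 0 := by
  classical
  rw [g.as_sum, Finset.sum_mul, map_sum]
  apply Finset.sum_eq_zero
  intro b _
  have hm : ∀ p q : Fin n, monomial b (coeff b g) * (X (xv p) * X (yv q)) =
      monomial (b + Finsupp.single (xv p) 1 + Finsupp.single (yv q) 1) (coeff b g) := by
    intro p q
    rw [X, X, monomial_mul, monomial_mul]
    simp [add_assoc]
  rw [mul_sub, hm, hm, map_sub, lam_monomial, lam_monomial]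
  have h' : j ∈ S ∨ i ∈ S ∨ cc j = cc i := by
    rcases h with h | h | h
    · exact Or.inr (Or.inl h)
    · exact Or.inl h
    · exact Or.inr (Or.inr h.symm)
  by_cases hb : b + Finsupp.single (xv i) 1 + Finsupp.single (yv j) 1 ∈ fib S cc μ
  · rw [if_pos hb, if_pos (fib_swap_aux S cc μ b i j h hb), sub_self]
  · rw [if_neg hb, if_neg (fun hb' => hb (fib_swap_aux S cc μ b j i h' hb')), sub_self]

lemma lam_ideal {K : Type*} [Field K] (G : SimpleGraph (Fin n)) (S : Set (Fin n))
    (cc : Fin n → Fin n) (hcc : ∀ i j, G.Adj i j → i ∈ S ∨ j ∈ S ∨ cc i = cc j)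
    (μ : (Fin n ⊕ₗ Fin n) →₀ ℕ) (f : MvPolynomial (Fin n ⊕ₗ Fin n) K)
    (hf : f ∈ binomialEdgeIdeal K G) : lam (fib S cc μ) f = 0 := by
  suffices h : ∀ g, lam (fib S cc μ) (g * f) = 0 by simpa using h 1
  unfold binomialEdgeIdeal at hf
  induction hf using Submodule.span_induction with
  | mem x hx =>
    obtain ⟨i, j, hij, rfl⟩ := hx
    exact lam_gen S cc μ i j (hcc i j hij)
  | zero => simp
  | add x y _ _ hx hy =>
    intro g
    rw [mul_add, map_add, hx, hy, add_zero]
  | smul a x _ hx =>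
    intro g
    rw [smul_eq_mul, ← mul_assoc]
    exact hx _

/-- the exponent of the leading term of a nonzero element of `J_G` involves a variable of the
prime attached to `S` and `cc` -/
lemma exists_mem_primeVars {K : Type*} [Field K] (G : SimpleGraph (Fin n)) (S : Set (Fin n))
    (cc : Fin n → Fin n) (hcc : ∀ i j, G.Adj i j → i ∈ S ∨ j ∈ S ∨ cc i = cc j)
    (f : MvPolynomial (Fin n ⊕ₗ Fin n) K) (hf : f ∈ binomialEdgeIdeal K G) (hf0 : f ≠ 0) :
    ∃ v ∈ primeVars S cc, (MonomialOrder.lex (σ := Fin n ⊕ₗ Fin n)).degree f v ≠ 0 := by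
  classical
  by_contra hcon
  push Not at hcon
  set μ := (MonomialOrder.lex (σ := Fin n ⊕ₗ Fin n)).degree f with hμ
  -- the constraints on `μ`
  have hx : ∀ i, μ (xv i) ≠ 0 → i ∉ S ∧ cc i ≤ i := by
    intro i hi
    by_contra h
    apply hi
    apply hcon
    refine ⟨i, Or.inl ⟨rfl, ?_⟩⟩
    by_contra h'
    push Not at h'
    exact h h'
  have hy : ∀ i, μ (yv i) ≠ 0 → i ∉ S ∧ i ≤ cc i := by
    intro i hi
    by_contra h
    apply hi
    apply hcon
    refine ⟨i, Or.inr ⟨rfl, ?_⟩⟩
    by_contra h'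
    push Not at h'
    exact h h'
  have hμF : μ ∈ fib S cc μ := by
    refine ⟨?_, fun _ => rfl, fun _ => rfl⟩
    intro i hi
    constructor
    · by_contra h
      exact (hx i h).1 hi
    · by_contra h
      exact (hy i h).1 hi
  have hcoeff : coeff μ f ≠ 0 := by
    rw [hμ]
    exact (MonomialOrder.coeff_degree_ne_zero_iff).mpr hf0
  apply hcoeff
  rw [← lam_eq_coeff (fib S cc μ) f μ hμF, lam_ideal G S cc hcc μ f hf]
  intro a ha haF
  by_contra hne
  have hle : toLex a ≤ toLex μ := MonomialOrder.lex_le_iff.mp (MonomialOrder.le_degree ha)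
  have hlt : toLex a < toLex μ := lt_of_le_of_ne hle (fun h => hne (toLex.injective h))
  obtain ⟨h1, h2, h3⟩ := haF
  rw [Finsupp.Lex.lt_iff] at hlt
  obtain ⟨v, hv, hv'⟩ := hlt
  simp only [ofLex_toLex] at hv hv'
  -- `v` must be an `x` variable
  rcases hw : ofLex v with i | i
  · have hvi : v = xv i := by rw [← toLex_ofLex v, hw]
    subst hvi
    have hi0 : μ (xv i) ≠ 0 := by
      have : a (xv i) < μ (xv i) := hv'
      omega
    obtain ⟨hiS, hci⟩ := hx i hi0
    -- some other `j` in the same class with larger exponent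
    have hsum := h3 (cc i)
    have : ∃ j, cc j = cc i ∧ μ (xv j) < a (xv j) := by
      by_contra hno
      push Not at hno
      have hlt2 : ∑ k with cc k = cc i, a (xv k) < ∑ k with cc k = cc i, μ (xv k) := by
        apply Finset.sum_lt_sum
        · intro k hk
          exact hno k (by simpa using hk)
        · exact ⟨i, by simp, hv'⟩
      omega
    obtain ⟨j, hj, hj'⟩ := this
    have hij : i < j := by
      by_contra hle'
      rcases lt_or_eq_of_le (not_lt.mp hle') with h | h
      · have := hv (xv j) (by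
          change toLex (Sum.inl j) < toLex (Sum.inl i)
          exact Sum.Lex.inl_lt_inl_iff.mpr h)
        omega
      · subst h
        have : a (xv j) < μ (xv j) := hv'
        omega
    have hyj : μ (yv j) = 0 := by
      by_contra h
      have := (hy j h).2
      rw [hj] at this
      exact absurd (lt_of_lt_of_le hij this) (not_lt.mpr hci)
    have := h2 j
    omega
  · have hvi : v = yv i := by rw [← toLex_ofLex v, hw]
    subst hvi
    have hxi : a (xv i) = μ (xv i) := hv (xv i) (by
      change toLex (Sum.inl i) < toLex (Sum.inr i)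
      exact Sum.Lex.inl_lt_inr _ _)
    have := h2 i
    have h4 : a (yv i) < μ (yv i) := hv'
    omega

/-- `in(J_G)` lies in the monomial prime attached to `S` and `cc`. -/
theorem initialIdeal_le {K : Type*} [Field K] (G : SimpleGraph (Fin n)) (S : Set (Fin n))
    (cc : Fin n → Fin n) (hcc : ∀ i j, G.Adj i j → i ∈ S ∨ j ∈ S ∨ cc i = cc j) :
    initialIdeal (binomialEdgeIdeal K G) ≤
      Ideal.span (X '' primeVars S cc : Set (MvPolynomial (Fin n ⊕ₗ Fin n) K)) := by
  unfold initialIdeal
  rw [Ideal.span_le]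
  rintro _ ⟨f, hf, rfl⟩
  by_cases hf0 : f = 0
  · rw [hf0, MonomialOrder.leadingTerm_zero]
    exact zero_mem _
  · obtain ⟨v, hv, hv'⟩ := exists_mem_primeVars G S cc hcc f hf hf0
    rw [SetLike.mem_coe, mem_ideal_span_X_image]
    intro m hm
    rw [MonomialOrder.leadingTerm] at hm
    have := support_monomial_subset hm
    rw [Finset.mem_singleton] at this
    subst this
    exact ⟨v, hv, hv'⟩

end Pool.Agent.Lib.MP_641f76_ag
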