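import Mathlib
import Pool.Agent.Lib.MP_641f76_ag.Defs
import Pool.Agent.Lib.MP_641f76_ag.Upper
import Pool.Agent.Lib.MP_641f76_ag.Lower
import Pool.Agent.Lib.MP_641f76_ag.Symb
import Pool.Agent.Lib.MP_641f76_ag.Admissible

/-!
# The regularity of the even symbolic powers of `in(J_{G8})`
-/

namespace Pool.Agent.Lib.MP_641f76_ag

open MvPolynomial

/-- the variable of an interior vertex `v` in the monomial of a path starting at `i` -/
def zvar (i v : Fin 8) : Fin 8 ⊕ₗ Fin 8 := if v < i then yv v else xv v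

lemma zvar_eq (i v : Fin 8) : zvar i v = xv v ∨ zvar i v = yv v := by
  unfold zvar
  split_ifs
  · exact Or.inr rfl
  · exact Or.inl rfl

/-- paths of `G8`: first vertex, interior vertices, last vertex -/
def paths8 : List (Fin 8 × List (Fin 8) × Fin 8) :=
  [(0, [], 1), (0, [6], 2), (0, [7, 5], 2), (0, [7, 5], 3), (0, [7], 5), (0, [], 6), (0, [], 7),
   (1, [0, 6], 2), (1, [7, 5], 2), (1, [7, 5], 3), (1, [7], 5), (1, [0], 6), (1, [], 7),
   (2, [5], 3), (2, [], 4), (2, [], 5), (2, [], 6), (3, [5, 2], 4), (3, [], 5), (4, [2], 5),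
   (4, [2], 6), (5, [2], 6), (5, [7, 0], 6), (5, [], 7), (6, [0], 7), (6, [2, 5], 7)]

/-- the variables of the monomial of a path -/
def vars8 (p : Fin 8 × List (Fin 8) × Fin 8) : List (Fin 8 ⊕ₗ Fin 8) :=
  xv p.1 :: yv p.2.2 :: p.2.1.map (zvar p.1)

lemma paths8_ok : ∀ p ∈ paths8, p.1 < p.2.2 ∧ (p.1 :: (p.2.1 ++ [p.2.2])).IsChain G8.Adj := by
  decide +kernel

lemma vars8_mem {K : Type*} [Field K] (p : Fin 8 × List (Fin 8) × Fin 8) (hp : p ∈ paths8) :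
    ((vars8 p).map X).prod ∈ initialIdeal (binomialEdgeIdeal K G8) := by
  obtain ⟨h1, h2⟩ := paths8_ok p hp
  exact gen_mem (K := K) G8 (zvar p.1) (zvar_eq p.1) p.2.1 p.1 p.2.2 h1 h2

/-- the variables of the monomial `w = x_1 x_3 x_5 x_6 x_7 y_0 y_2 y_3 y_4` -/
def W8 : Finset (Fin 8 ⊕ₗ Fin 8) :=
  {xv 1, xv 3, xv 5, xv 6, xv 7, yv 0, yv 2, yv 3, yv 4}

/-- the six monomial primes: the set `S`, the chosen vertices, the variables -/
def primes8 : List (Finset (Fin 8) × (Fin 8 → Fin 8) × Finset (Fin 8 ⊕ₗ Fin 8)) :=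
  [(∅, ![3, 3, 3, 3, 3, 3, 3, 3], {xv 0, xv 1, xv 2, yv 4, yv 5, yv 6, yv 7}),
   (∅, ![5, 5, 5, 5, 5, 5, 5, 5], {xv 0, xv 1, xv 2, xv 3, xv 4, yv 6, yv 7}),
   ({2}, ![1, 1, 2, 1, 4, 1, 1, 1], {xv 0, xv 2, yv 2, yv 3, yv 5, yv 6, yv 7}),
   ({0, 5}, ![0, 1, 6, 3, 6, 5, 6, 1], {xv 0, xv 2, xv 4, xv 5, yv 0, yv 5, yv 7}),
   ({2, 7}, ![1, 1, 2, 3, 4, 3, 1, 7], {xv 0, xv 2, xv 7, yv 2, yv 5, yv 6, yv 7}),
   ({5, 6}, ![1, 1, 4, 3, 4, 5, 6, 1], {xv 0, xv 2, xv 5, xv 6, yv 5, yv 6, yv 7})]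

lemma primes8_comp : ∀ q ∈ primes8, ∀ i j : Fin 8, G8.Adj i j →
    i ∈ q.1 ∨ j ∈ q.1 ∨ q.2.1 i = q.2.1 j := by
  intro q hq
  simp only [primes8, List.mem_cons, List.not_mem_nil, or_false] at hq
  rcases hq with rfl | rfl | rfl | rfl | rfl | rfl <;> decide +kernel

lemma primes8_x : ∀ q ∈ primes8, ∀ i : Fin 8, (i ∈ q.1 ∨ i < q.2.1 i) → xv i ∈ q.2.2 := by
  intro q hq
  simp only [primes8, List.mem_cons, List.not_mem_nil, or_false] at hq
  rcases hq with rfl | rfl | rfl | rfl | rfl | rfl <;> decide +kernel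

lemma primes8_y : ∀ q ∈ primes8, ∀ i : Fin 8, (i ∈ q.1 ∨ q.2.1 i < i) → yv i ∈ q.2.2 := by
  intro q hq
  simp only [primes8, List.mem_cons, List.not_mem_nil, or_false] at hq
  rcases hq with rfl | rfl | rfl | rfl | rfl | rfl <;> decide +kernel

lemma primes8_card : ∀ q ∈ primes8, (q.2.2 ∩ W8).card = 2 := by
  intro q hq
  simp only [primes8, List.mem_cons, List.not_mem_nil, or_false] at hq
  rcases hq with rfl | rfl | rfl | rfl | rfl | rfl <;> decide +kernel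

lemma primes8_cover : ∀ z ∈ W8, ∃ q ∈ primes8, z ∈ q.2.2 := by
  decide +kernel

lemma primes8_min : ∀ q ∈ primes8, ∀ v ∈ q.2.2, ∃ p ∈ paths8,
    ∀ u ∈ vars8 p, u ∈ q.2.2 → u = v := by
  decide +kernel

lemma W8_gen : ∀ a ∈ W8, ∃ p ∈ paths8, ∀ u ∈ vars8 p, u ∈ W8 ∧ u ≠ a := by
  decide +kernel

/-- the regularity of `in(J_{G8})^(2m)` is at least `9 m` -/
theorem le_regularity_G8 (K : Type*) [Field K] (m : ℕ) :
    (((9 * m : ℕ) : ℝ) : EReal) ≤
      regularity (symbolicPower (initialIdeal (binomialEdgeIdeal K G8)) (2 * m)) := by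
  have h9 : W8.card = 9 := by decide +kernel
  rw [← h9]
  apply le_regularity
  · exact ⟨xv 1, by decide +kernel⟩
  · intro a ha
    obtain ⟨p, hp, hp'⟩ := W8_gen a ha
    exact ⟨vars8 p, vars8_mem p hp, hp'⟩
  · intro z hz
    obtain ⟨q, hq, hzq⟩ := primes8_cover z hz
    refine ⟨q.2.2, hzq, primes8_card q hq, ?_, ?_⟩
    · refine le_trans (initialIdeal_le G8 (q.1 : Set (Fin 8)) q.2.1 (primes8_comp q hq)) ?_
      apply Ideal.span_mono
      apply Set.image_mono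
      rintro v ⟨i, ⟨rfl, hi⟩ | ⟨rfl, hi⟩⟩
      · exact primes8_x q hq i hi
      · exact primes8_y q hq i hi
    · intro v hv
      obtain ⟨p, hp, hp'⟩ := primes8_min q hq v hv
      exact ⟨vars8 p, vars8_mem p hp, hp'⟩

end Pool.Agent.Lib.MP_641f76_ag
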