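import Mathlib
import Pool.Agent.Lib.MP_641f76_ag.Defs

/-!
# Definitions for Q1 of MP_641f76_ag

The multigraded generic initial ideal of a binomial edge ideal, and the largest length of an
induced path.
-/

namespace Pool.Agent.Lib.MP_641f76_ag

open MvPolynomial

/-- `gin(J_G)`, the multigraded generic initial ideal of the binomial edge ideal of `G`: the
monomial ideal generated by all `y_{v_1} ⋯ y_{v_s} x_i x_j` (`s ≥ 0`) such that
`i, v_1, ..., v_s, j` is a path of `G`. -/
noncomputable def genericInitialIdeal (K : Type*) [Field K] {n : ℕ} (G : SimpleGraph (Fin n)) :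
    Ideal (MvPolynomial (Fin n ⊕ₗ Fin n) K) :=
  Ideal.span {f | ∃ (i : Fin n) (l : List (Fin n)) (j : Fin n), IsPathThrough G i l j ∧
    f = (l.map fun v => X (yv v)).prod * (X (xv i) * X (xv j))}

/-- `ℓ`: the largest length (number of vertices) of an induced path of `G`, i.e. the largest `k`
such that the path graph on `k` vertices embeds in `G` as an induced subgraph. -/
noncomputable def inducedLength {n : ℕ} (G : SimpleGraph (Fin n)) : ℕ :=
  sSup {k | Nonempty (SimpleGraph.pathGraph k ↪g G)}

end Pool.Agent.Lib.MP_641f76_ag
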