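import Mathlib
import Pool.Agent.Lib.MP_641f76_ag.Defs
import Pool.Agent.Lib.MP_641f76_ag.Symb

/-!
# A lower bound for the regularity of the symbolic powers of a squarefree monomial ideal

If every set of variables covering `I` contains at least `d` variables of `W`, and every variable
of `W` lies in a cover with exactly `d` variables of `W`, then `w ^ m`, with `w` the product of
the variables of `W`, is a minimal generator of `I^(dm)`.
-/

namespace Pool.Agent.Lib.MP_641f76_ag

open MvPolynomial

variable {σ K : Type*} [Field K] [DecidableEq σ]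

/-- the minimal primes of an ideal generated by products of variables are generated by
variables -/
lemma eq_varIdeal_of_minimal [Fintype σ] (I : Ideal (MvPolynomial σ K)) (L : Set (List σ))
    (hL : I = Ideal.span ((fun l : List σ => (l.map X).prod) '' L))
    (P : Ideal (MvPolynomial σ K)) (hP : P ∈ I.minimalPrimes) :
    ∃ A : Finset σ, P = varIdeal K A := by
  classical
  have hPr := hP.1.1
  have hIP := hP.1.2
  let A : Finset σ := Finset.univ.filter fun v => (X v : MvPolynomial σ K) ∈ P
  refine ⟨A, le_antisymm ?_ ?_⟩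
  · have hle : varIdeal K A ≤ P := by
      rw [Ideal.span_le]
      rintro _ ⟨v, hv, rfl⟩
      simpa [A] using hv
    refine hP.2 ⟨inferInstance, ?_⟩ hle
    rw [hL, Ideal.span_le]
    rintro _ ⟨l, hl, rfl⟩
    have h1 : (l.map X).prod ∈ P := hIP (by
      rw [hL]
      exact Ideal.subset_span ⟨l, hl, rfl⟩)
    obtain ⟨v, hv, hvP⟩ := exists_mem_of_prod P hPr l h1
    have hvA : (X v : MvPolynomial σ K) ∈ varIdeal K A :=
      (X_mem_varIdeal_iff A v).mpr (by simpa [A] using hvP)
    have h2 : (X v : MvPolynomial σ K) ∣ (l.map X).prod :=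
      List.dvd_prod (List.mem_map_of_mem hv)
    exact Ideal.mem_of_dvd _ h2 hvA
  · rw [Ideal.span_le]
    rintro _ ⟨v, hv, rfl⟩
    simpa [A] using hv

lemma prod_pow_mem (A s : Finset σ) (hs : s ⊆ A) (m : ℕ) :
    (monomial (wexp s m) (1 : K)) ∈ varIdeal K A ^ (s.card * m) := by
  induction s using Finset.induction_on with
  | empty => simp
  | insert a s has ih =>
    have h1 : wexp (insert a s) m = Finsupp.single a m + wexp s m := by
      unfold wexp
      rw [Finset.sum_insert has]
    have h2 : monomial (wexp (insert a s) m) (1 : K) = X a ^ m * monomial (wexp s m) 1 := by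
      rw [h1, X_pow_eq_monomial, monomial_mul, one_mul]
    rw [h2, Finset.card_insert_of_notMem has, add_mul, one_mul, add_comm, pow_add]
    refine Ideal.mul_mem_mul (Ideal.pow_mem_pow ?_ m)
      (ih ((Finset.subset_insert _ _).trans hs))
    exact (X_mem_varIdeal_iff A a).mpr (hs (Finset.mem_insert_self _ _))

lemma wexp_mem' [Fintype σ] (I : Ideal (MvPolynomial σ K)) (L : Set (List σ))
    (hL : I = Ideal.span ((fun l : List σ => (l.map X).prod) '' L)) (W : Finset σ) (d : ℕ)
    (h : ∀ A : Finset σ, I ≤ varIdeal K A → d ≤ (A ∩ W).card) (m : ℕ) :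
    (monomial (wexp W m) (1 : K)) ∈ symbolicPower I (d * m) := by
  intro P hP
  obtain ⟨A, rfl⟩ := eq_varIdeal_of_minimal I L hL P hP
  refine ⟨1, fun h => hP.1.1.ne_top ((Ideal.eq_top_iff_one _).mpr h), ?_⟩
  rw [mul_one]
  have h1 := h A hP.1.2
  have h2 : wexp W m = wexp (A ∩ W) m + wexp (W \ (A ∩ W)) m := by
    unfold wexp
    rw [add_comm, Finset.sum_sdiff Finset.inter_subset_right]
  have h3 : monomial (wexp W m) (1 : K) = monomial (wexp (A ∩ W) m) 1 *
      monomial (wexp (W \ (A ∩ W)) m) 1 := by
    rw [h2, monomial_mul, one_mul]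
  rw [h3]
  refine Ideal.mul_mem_right _ _ ?_
  exact Ideal.pow_le_pow_right (Nat.mul_le_mul_right m h1)
    (prod_pow_mem A (A ∩ W) Finset.inter_subset_left m)

/-- **Lower bound for the regularity of symbolic powers.** -/
theorem le_regularity' [Fintype σ] (I : Ideal (MvPolynomial σ K)) (L : Set (List σ))
    (hL : I = Ideal.span ((fun l : List σ => (l.map X).prod) '' L)) (W : Finset σ) (d : ℕ)
    (h : ∀ A : Finset σ, I ≤ varIdeal K A → d ≤ (A ∩ W).card)
    (hQ : ∀ z ∈ W, ∃ A : Finset σ, z ∈ A ∧ (A ∩ W).card ≤ d ∧ I ≤ varIdeal K A) (m : ℕ) :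
    (((W.card * m : ℕ) : ℝ) : EReal) ≤ regularity (symbolicPower I (d * m)) := by
  unfold regularity
  refine le_iInf₂ ?_
  rintro r ⟨F, hF⟩
  obtain ⟨b, a, ha, hae⟩ := exists_basis_of_range F _ (wexp_mem' I L hL W d h m) (wexp W m)
    (by rw [coeff_monomial, if_pos rfl]; exact one_ne_zero)
  have hmem := aug_mem F b
  -- all the exponents of `a` are maximal
  have haW : a = wexp W m := by
    have hle : ∀ v, a v ≤ if v ∈ W then m else 0 := by
      intro v
      rw [← wexp_apply]
      exact hae v
    ext z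
    rw [wexp_apply]
    by_cases hz : z ∈ W
    · rw [if_pos hz]
      obtain ⟨A₀, hzA₀, hcard₀, hIA₀⟩ := hQ z hz
      obtain ⟨P, hPmin, hPle⟩ := Ideal.exists_minimalPrimes_le hIA₀
      obtain ⟨A, rfl⟩ := eq_varIdeal_of_minimal I L hL P hPmin
      have hAA₀ : A ⊆ A₀ := by
        intro v hv
        exact (X_mem_varIdeal_iff A₀ v).mp (hPle ((X_mem_varIdeal_iff A v).mpr hv))
      have hcardA := h A hPmin.1.2
      have hsub : A ∩ W ⊆ A₀ ∩ W := Finset.inter_subset_inter_right hAA₀
      have heq : A ∩ W = A₀ ∩ W := Finset.eq_of_subset_of_card_le hsub (hcard₀.trans hcardA)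
      have hcard : (A ∩ W).card = d := le_antisymm (by rw [heq]; exact hcard₀) hcardA
      have hzA : z ∈ A := by
        have : z ∈ A ∩ W := by
          rw [heq]
          exact Finset.mem_inter.mpr ⟨hzA₀, hz⟩
        exact (Finset.mem_inter.mp this).1
      obtain ⟨q, hq, hq'⟩ := hmem _ hPmin
      have hdeg := degA_of_mul_mem_pow A _ q (d * m) hq hq' a ha
      have h1 : degA A a ≤ ∑ v ∈ A ∩ W, a v := by
        unfold degA
        rw [← Finset.sum_inter_add_sum_sdiff A W]
        have : ∑ v ∈ A \ W, a v = 0 := by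
          apply Finset.sum_eq_zero
          intro v hv
          have := hle v
          rw [if_neg (Finset.mem_sdiff.mp hv).2] at this
          omega
        omega
      have hzAW : z ∈ A ∩ W := Finset.mem_inter.mpr ⟨hzA, hz⟩
      have h2 : ∑ v ∈ A ∩ W, a v = a z + ∑ v ∈ (A ∩ W).erase z, a v :=
        (Finset.add_sum_erase _ _ hzAW).symm
      have h3 : ∑ v ∈ (A ∩ W).erase z, a v ≤ ((A ∩ W).erase z).card • m := by
        apply Finset.sum_le_card_nsmul
        intro v hv
        have := hle v
        rw [if_pos (Finset.mem_inter.mp (Finset.mem_of_mem_erase hv)).2] at this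
        exact this
      rw [Finset.card_erase_of_mem hzAW, hcard] at h3
      have h4 := hle z
      rw [if_pos hz] at h4
      simp only [smul_eq_mul] at h3
      have hd : 0 < d := by
        rw [← hcard]
        exact Finset.card_pos.mpr ⟨z, hzAW⟩
      have h5 : d * m = m + (d - 1) * m := by
        obtain ⟨k, rfl⟩ : ∃ k, d = k + 1 := ⟨d - 1, by omega⟩
        rw [Nat.add_sub_cancel]
        ring
      omega
    · rw [if_neg hz]
      have := hle z
      rw [if_neg hz] at this
      omega
  have hdeg := F.aug_homogeneous b a ha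
  have hr := hF 0 b
  rw [← hdeg, haW] at hr
  have h5 : (wexp W m).degree = W.card * m := by
    rw [Finsupp.degree_eq_sum]
    simp only [wexp_apply]
    rw [Finset.sum_ite_mem, Finset.univ_inter, Finset.sum_const, smul_eq_mul]
  rw [h5] at hr
  have hr' : ((W.card * m : ℕ) : ℤ) ≤ r := by simpa using hr
  have hr'' : ((W.card * m : ℕ) : ℝ) ≤ (r : ℝ) := by exact_mod_cast hr'
  exact_mod_cast hr''

end Pool.Agent.Lib.MP_641f76_ag
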