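import Mathlib
import Pool.Agent.Lib.MP_641f76_ag.GinDefs
import Pool.Agent.Lib.MP_641f76_ag.GinSymb

/-!
# The graphs `G_p`

`G_p` consists of two disjoint cliques on `p` vertices each and, for each pair `(a, b)` of a
vertex `a` of the first and a vertex `b` of the second one, a vertex adjacent to `a` and `b` only.
Its induced paths have at most `7` vertices.
-/

namespace Pool.Agent.Lib.MP_641f76_ag

open MvPolynomial

/-- the vertices of `G_p` -/
abbrev VP (p : ℕ) : Type := Fin p ⊕ (Fin p ⊕ (Fin p × Fin p))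

/-- adjacency in `G_p` -/
def adjP {p : ℕ} : VP p → VP p → Prop
  | .inl a, .inl a' => a ≠ a'
  | .inr (.inl b), .inr (.inl b') => b ≠ b'
  | .inl a, .inr (.inr s) => s.1 = a
  | .inr (.inr s), .inl a => s.1 = a
  | .inr (.inl b), .inr (.inr s) => s.2 = b
  | .inr (.inr s), .inr (.inl b) => s.2 = b
  | .inl _, .inr (.inl _) => False
  | .inr (.inl _), .inl _ => False
  | .inr (.inr _), .inr (.inr _) => False

/-- the graph `G_p` -/
def GP (p : ℕ) : SimpleGraph (VP p) where
  Adj := adjP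
  symm := ⟨by
    rintro (a | b | s) (a' | b' | s') h
    · exact Ne.symm h
    · exact h
    · exact h
    · exact h
    · exact Ne.symm h
    · exact h
    · exact h
    · exact h
    · exact h⟩
  loopless := ⟨by
    rintro (a | b | s) h
    · exact h rfl
    · exact h rfl
    · exact h⟩

/-- the kind of a vertex: first clique, second clique, connecting vertex -/
def kind {p : ℕ} : VP p → Fin 3
  | .inl _ => 0
  | .inr (.inl _) => 1
  | .inr (.inr _) => 2

lemma adj_of_kind_zero {p : ℕ} {u v : VP p} (hu : kind u = 0) (hv : kind v = 0) (huv : u ≠ v) :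
    (GP p).Adj u v := by
  rcases u with a | b | s
  · rcases v with a' | b' | s'
    · intro h
      exact huv (by rw [h])
    · exact absurd hv (by simp [kind])
    · exact absurd hv (by simp [kind])
  · exact absurd hu (by simp [kind])
  · exact absurd hu (by simp [kind])

lemma adj_of_kind_one {p : ℕ} {u v : VP p} (hu : kind u = 1) (hv : kind v = 1) (huv : u ≠ v) :
    (GP p).Adj u v := by
  rcases u with a | b | s
  · exact absurd hu (by simp [kind])
  · rcases v with a' | b' | s'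
    · exact absurd hv (by simp [kind])
    · intro h
      exact huv (by rw [h])
    · exact absurd hv (by simp [kind])
  · exact absurd hu (by simp [kind])

lemma not_adj_of_kind_two {p : ℕ} {u v : VP p} (hu : kind u = 2) (hv : kind v = 2) :
    ¬ (GP p).Adj u v := by
  rcases u with a | b | s
  · exact absurd hu (by simp [kind])
  · exact absurd hu (by simp [kind])
  · rcases v with a' | b' | s'
    · exact absurd hv (by simp [kind])
    · exact absurd hv (by simp [kind])
    · exact fun h => h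

/-- the combinatorial core of the bound on induced paths -/
lemma no_kind_seq (t : ℕ → Fin 3)
    (h0 : ∀ i j, i < j → j < 8 → i + 1 ≠ j → t i = 0 → t j = 0 → False)
    (h1 : ∀ i j, i < j → j < 8 → i + 1 ≠ j → t i = 1 → t j = 1 → False)
    (h2 : ∀ i, i + 1 < 8 → t i = 2 → t (i + 1) = 2 → False) : False := by
  have hN : ∀ i j, i < j → j < 8 → i + 1 ≠ j → t i ≠ 2 → t j ≠ 2 → t i ≠ t j := by
    intro i j hij hj hij1 hn _ he
    have h3 : t i = 0 ∨ t i = 1 := by
      have h4 : ∀ x : Fin 3, x ≠ 2 → x = 0 ∨ x = 1 := by decide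
      exact h4 _ hn
    rcases h3 with h3 | h3
    · exact h0 i j hij hj hij1 h3 (he ▸ h3)
    · exact h1 i j hij hj hij1 h3 (he ▸ h3)
  have hc : ∀ i, i + 1 < 8 → t i ≠ 2 ∨ t (i + 1) ≠ 2 := by
    intro i hi
    by_contra hcon
    push Not at hcon
    exact h2 i hi hcon.1 hcon.2
  have two : ∀ x y z : Fin 3, x ≠ 2 → y ≠ 2 → z ≠ 2 → x ≠ y → x ≠ z → y = z := by
    intro x y z hx hy hz hxy hxz
    have h4 : ∀ x : Fin 3, x ≠ 2 → x = 0 ∨ x = 1 := by decide
    rcases h4 x hx with rfl | rfl <;> rcases h4 y hy with rfl | rfl <;>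
      rcases h4 z hz with rfl | rfl <;> first | rfl | exact absurd rfl hxy | exact absurd rfl hxz
  have claim : ∀ c0 c1 c2 c3 : ℕ, (c0 = 0 ∨ c0 = 1) → (c1 = 2 ∨ c1 = 3) → (c2 = 4 ∨ c2 = 5) →
      (c3 = 6 ∨ c3 = 7) → t c0 ≠ 2 → t c1 ≠ 2 → t c2 ≠ 2 → t c3 ≠ 2 →
      c0 = 1 ∧ c1 = 2 ∧ c2 = 5 ∧ c3 = 6 := by
    intro c0 c1 c2 c3 e0 e1 e2 e3 n0 n1 n2 n3
    have d02 := hN c0 c2 (by omega) (by omega) (by omega) n0 n2
    have d03 := hN c0 c3 (by omega) (by omega) (by omega) n0 n3
    have d13 := hN c1 c3 (by omega) (by omega) (by omega) n1 n3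
    have q23 : t c2 = t c3 := two _ _ _ n0 n2 n3 d02 d03
    have q01 : t c0 = t c1 := two _ _ _ n3 n0 n1 d03.symm d13.symm
    have p23 : c2 + 1 = c3 := by
      by_contra hcon
      exact hN c2 c3 (by omega) (by omega) hcon n2 n3 q23
    have p01 : c0 + 1 = c1 := by
      by_contra hcon
      exact hN c0 c1 (by omega) (by omega) hcon n0 n1 q01
    omega
  obtain ⟨c0, e0, n0⟩ : ∃ c, (c = 0 ∨ c = 1) ∧ t c ≠ 2 := by
    rcases hc 0 (by omega) with h | h
    · exact ⟨0, Or.inl rfl, h⟩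
    · exact ⟨1, Or.inr rfl, h⟩
  obtain ⟨c1, e1, n1⟩ : ∃ c, (c = 2 ∨ c = 3) ∧ t c ≠ 2 := by
    rcases hc 2 (by omega) with h | h
    · exact ⟨2, Or.inl rfl, h⟩
    · exact ⟨3, Or.inr rfl, h⟩
  obtain ⟨c2, e2, n2⟩ : ∃ c, (c = 4 ∨ c = 5) ∧ t c ≠ 2 := by
    rcases hc 4 (by omega) with h | h
    · exact ⟨4, Or.inl rfl, h⟩
    · exact ⟨5, Or.inr rfl, h⟩
  obtain ⟨c3, e3, n3⟩ : ∃ c, (c = 6 ∨ c = 7) ∧ t c ≠ 2 := by
    rcases hc 6 (by omega) with h | h
    · exact ⟨6, Or.inl rfl, h⟩
    · exact ⟨7, Or.inr rfl, h⟩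
  rcases hc 3 (by omega) with h | h
  · have := claim c0 3 c2 c3 e0 (Or.inr rfl) e2 e3 n0 h n2 n3
    omega
  · have := claim c0 c1 4 c3 e0 e1 (Or.inl rfl) e3 n0 n1 h n3
    omega

/-- the induced paths of `G_p` have at most `7` vertices -/
lemma induced_le {p k : ℕ} (φ : SimpleGraph.pathGraph k ↪g GP p) : k ≤ 7 := by
  by_contra hk
  push Not at hk
  have hk0 : 0 < k := by omega
  let t : ℕ → Fin 3 := fun i => if h : i < k then kind (φ ⟨i, h⟩) else 2
  have ht : ∀ i (h : i < k), t i = kind (φ ⟨i, h⟩) := fun i h => dif_pos h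
  have hne : ∀ i j (hi : i < k) (hj : j < k), i < j → φ ⟨i, hi⟩ ≠ φ ⟨j, hj⟩ := by
    intro i j hi hj hij h
    have := φ.injective h
    rw [Fin.mk.injEq] at this
    omega
  refine no_kind_seq t ?_ ?_ ?_
  · intro i j hij hj hij1 hi0 hj0
    have hi' : i < k := by omega
    have hj' : j < k := by omega
    rw [ht i hi'] at hi0
    rw [ht j hj'] at hj0
    have h := adj_of_kind_zero hi0 hj0 (hne i j hi' hj' hij)
    rw [φ.map_adj_iff, SimpleGraph.pathGraph_adj] at h
    simp only at h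
    omega
  · intro i j hij hj hij1 hi0 hj0
    have hi' : i < k := by omega
    have hj' : j < k := by omega
    rw [ht i hi'] at hi0
    rw [ht j hj'] at hj0
    have h := adj_of_kind_one hi0 hj0 (hne i j hi' hj' hij)
    rw [φ.map_adj_iff, SimpleGraph.pathGraph_adj] at h
    simp only at h
    omega
  · intro i hi hi2 hi2'
    have hi' : i < k := by omega
    have hj' : i + 1 < k := by omega
    rw [ht i hi'] at hi2
    rw [ht (i + 1) hj'] at hi2'
    refine not_adj_of_kind_two hi2 hi2' ?_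
    rw [φ.map_adj_iff, SimpleGraph.pathGraph_adj]
    exact Or.inl rfl

end Pool.Agent.Lib.MP_641f76_ag
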