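import Mathlib
import Pool.Agent.Lib.MP_641f76_ag.GinDefs
import Pool.Agent.Lib.MP_641f76_ag.GinSymb
import Pool.Agent.Lib.MP_641f76_ag.GinGraph

/-!
# The regularity of the symbolic powers of `gin(J_G)` for `G = G_p`
-/

namespace Pool.Agent.Lib.MP_641f76_ag

open MvPolynomial

variable {p N : ℕ}

/-- `G_p` on the vertex set `Fin N` -/
def GN (τ : VP p ≃ Fin N) : SimpleGraph (Fin N) := (GP p).comap τ.symm

lemma GN_adj (τ : VP p ≃ Fin N) (u v : VP p) : (GN τ).Adj (τ u) (τ v) ↔ adjP u v := by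
  show (GP p).Adj (τ.symm (τ u)) (τ.symm (τ v)) ↔ adjP u v
  rw [Equiv.symm_apply_apply, Equiv.symm_apply_apply]
  exact Iff.rfl

lemma inducedLength_GN (τ : VP p ≃ Fin N) : inducedLength (GN τ) ≤ 7 := by
  unfold inducedLength
  apply csSup_le'
  rintro k ⟨φ⟩
  exact induced_le (φ.trans (SimpleGraph.Embedding.comap τ.symm.toEmbedding (GP p)))

/-- the monomials generating `gin(J_G)`, as lists of variables -/
def ginLists {n : ℕ} (G : SimpleGraph (Fin n)) : Set (List (Fin n ⊕ₗ Fin n)) :=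
  {w | ∃ (i : Fin n) (l : List (Fin n)) (j : Fin n), IsPathThrough G i l j ∧
    w = l.map yv ++ [xv i, xv j]}

lemma gin_eq (K : Type*) [Field K] {n : ℕ} (G : SimpleGraph (Fin n)) :
    genericInitialIdeal K G = Ideal.span
      ((fun l : List (Fin n ⊕ₗ Fin n) => (l.map (X : _ → MvPolynomial (Fin n ⊕ₗ Fin n) K)).prod) ''
        ginLists G) := by
  unfold genericInitialIdeal
  congr 1
  ext f
  constructor
  · rintro ⟨i, l, j, hp, rfl⟩
    refine ⟨_, ⟨i, l, j, hp, rfl⟩, ?_⟩
    simp [List.map_map, Function.comp_def]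
  · rintro ⟨_, ⟨i, l, j, hp, rfl⟩, rfl⟩
    refine ⟨i, l, j, hp, ?_⟩
    simp [List.map_map, Function.comp_def]

lemma xv_ne_yv {n : ℕ} (i j : Fin n) : (xv i : Fin n ⊕ₗ Fin n) ≠ yv j := by
  intro h
  exact Sum.inl_ne_inr (toLex.injective h)

lemma xv_inj {n : ℕ} {i j : Fin n} (h : (xv i : Fin n ⊕ₗ Fin n) = xv j) : i = j :=
  Sum.inl_injective (toLex.injective h)

lemma yv_inj {n : ℕ} {i j : Fin n} (h : (yv i : Fin n ⊕ₗ Fin n) = yv j) : i = j :=
  Sum.inr_injective (toLex.injective h)

/-- the variables of `w` -/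
def wP (τ : VP p ≃ Fin N) : VP p → Fin N ⊕ₗ Fin N
  | .inl a => xv (τ (.inl a))
  | .inr (.inl b) => xv (τ (.inr (.inl b)))
  | .inr (.inr s) => yv (τ (.inr (.inr s)))

lemma wP_injective (τ : VP p ≃ Fin N) : Function.Injective (wP τ) := by
  rintro (a | b | s) (a' | b' | s') h
  · exact τ.injective (xv_inj h)
  · exact τ.injective (xv_inj h)
  · exact absurd h (xv_ne_yv _ _)
  · exact τ.injective (xv_inj h)
  · exact τ.injective (xv_inj h)
  · exact absurd h (xv_ne_yv _ _)
  · exact absurd h.symm (xv_ne_yv _ _)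
  · exact absurd h.symm (xv_ne_yv _ _)
  · exact τ.injective (yv_inj h)

/-- the set of variables of `w = ∏ x_a ∏ x_b ∏ y_(a,b)` -/
def WP (τ : VP p ≃ Fin N) : Finset (Fin N ⊕ₗ Fin N) := Finset.univ.map ⟨wP τ, wP_injective τ⟩

lemma WP_card (τ : VP p ≃ Fin N) : (WP τ).card = N := by
  rw [WP, Finset.card_map, Finset.card_univ, Fintype.card_congr τ, Fintype.card_fin]

lemma card_inter_le (τ : VP p ≃ Fin N) (A : Finset (Fin N ⊕ₗ Fin N)) (U : Finset (VP p))
    (h : ∀ v, wP τ v ∈ A → v ∈ U) : (A ∩ WP τ).card ≤ U.card := by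
  rw [← Finset.card_map ⟨wP τ, wP_injective τ⟩]
  apply Finset.card_le_card
  intro z hz
  rw [Finset.mem_inter, WP, Finset.mem_map] at hz
  obtain ⟨hzA, v, _, rfl⟩ := hz
  exact Finset.mem_map.mpr ⟨v, h v hzA, rfl⟩

lemma card_le_inter (τ : VP p ≃ Fin N) (A : Finset (Fin N ⊕ₗ Fin N)) (U : Finset (VP p))
    (h : ∀ v ∈ U, wP τ v ∈ A) : U.card ≤ (A ∩ WP τ).card := by
  rw [← Finset.card_map ⟨wP τ, wP_injective τ⟩]
  apply Finset.card_le_card
  intro z hz
  rw [Finset.mem_map] at hz
  obtain ⟨v, hv, rfl⟩ := hz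
  exact Finset.mem_inter.mpr ⟨h v hv, Finset.mem_map.mpr ⟨v, Finset.mem_univ _, rfl⟩⟩

lemma exists_of_cover {K : Type*} [Field K] {n : ℕ} (G : SimpleGraph (Fin n))
    (A : Finset (Fin n ⊕ₗ Fin n)) (hA : genericInitialIdeal K G ≤ varIdeal K A)
    {i j : Fin n} {l : List (Fin n)} (h : IsPathThrough G i l j) :
    xv i ∈ A ∨ xv j ∈ A ∨ ∃ v ∈ l, yv v ∈ A := by
  have h1 : ((l.map yv ++ [xv i, xv j]).map
      (X : _ → MvPolynomial (Fin n ⊕ₗ Fin n) K)).prod ∈ varIdeal K A := by
    apply hA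
    rw [gin_eq]
    exact Ideal.subset_span ⟨_, ⟨i, l, j, h, rfl⟩, rfl⟩
  obtain ⟨v, hv, hvA⟩ := exists_mem_of_prod _ inferInstance _ h1
  rw [X_mem_varIdeal_iff] at hvA
  rw [List.mem_append, List.mem_map] at hv
  rcases hv with ⟨u, hu, rfl⟩ | hv
  · exact Or.inr (Or.inr ⟨u, hu, hvA⟩)
  · simp only [List.mem_cons, List.not_mem_nil, or_false] at hv
    rcases hv with rfl | rfl
    · exact Or.inl hvA
    · exact Or.inr (Or.inl hvA)

lemma le_varIdeal {K : Type*} [Field K] {n : ℕ} (G : SimpleGraph (Fin n))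
    (A : Finset (Fin n ⊕ₗ Fin n))
    (h : ∀ (i j : Fin n) (l : List (Fin n)), IsPathThrough G i l j →
      xv i ∈ A ∨ xv j ∈ A ∨ ∃ v ∈ l, yv v ∈ A) : genericInitialIdeal K G ≤ varIdeal K A := by
  rw [gin_eq, Ideal.span_le]
  rintro _ ⟨_, ⟨i, l, j, hp, rfl⟩, rfl⟩
  obtain ⟨v, hv, hvA⟩ : ∃ v ∈ l.map yv ++ [xv i, xv j], v ∈ A := by
    rcases h i j l hp with h1 | h1 | ⟨v, hv, h1⟩
    · exact ⟨xv i, by simp, h1⟩
    · exact ⟨xv j, by simp, h1⟩
    · exact ⟨yv v, List.mem_append_left _ (List.mem_map_of_mem hv), h1⟩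
  have h2 : (X v : MvPolynomial (Fin n ⊕ₗ Fin n) K) ∣
      ((l.map yv ++ [xv i, xv j]).map X).prod := List.dvd_prod (List.mem_map_of_mem hv)
  exact Ideal.mem_of_dvd _ h2 ((X_mem_varIdeal_iff A v).mpr hvA)

/-- each cover of `gin(J_G)` contains at least `2 p - 1` variables of `w` -/
lemma cover_card {K : Type*} [Field K] (hp : 1 ≤ p) (τ : VP p ≃ Fin N)
    (A : Finset (Fin N ⊕ₗ Fin N)) (hA : genericInitialIdeal K (GN τ) ≤ varIdeal K A) :
    2 * p - 1 ≤ (A ∩ WP τ).card := by
  classical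
  have F1 : ∀ a a' : Fin p, a ≠ a' → wP τ (.inl a) ∈ A ∨ wP τ (.inl a') ∈ A := by
    intro a a' haa'
    have hpath : IsPathThrough (GN τ) (τ (.inl a)) [] (τ (.inl a')) := by
      constructor
      · simp [haa']
      · simp only [List.nil_append, List.isChain_cons_cons, List.isChain_singleton, and_true]
        exact (GN_adj τ _ _).mpr haa'
    rcases exists_of_cover (GN τ) A hA hpath with h | h | ⟨v, hv, _⟩
    · exact Or.inl h
    · exact Or.inr h
    · simp at hv
  have F2 : ∀ b b' : Fin p, b ≠ b' →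
      wP τ (.inr (.inl b)) ∈ A ∨ wP τ (.inr (.inl b')) ∈ A := by
    intro b b' hbb'
    have hpath : IsPathThrough (GN τ) (τ (.inr (.inl b))) [] (τ (.inr (.inl b'))) := by
      constructor
      · simp [hbb']
      · simp only [List.nil_append, List.isChain_cons_cons, List.isChain_singleton, and_true]
        exact (GN_adj τ _ _).mpr hbb'
    rcases exists_of_cover (GN τ) A hA hpath with h | h | ⟨v, hv, _⟩
    · exact Or.inl h
    · exact Or.inr h
    · simp at hv
  have F3 : ∀ a b : Fin p, wP τ (.inl a) ∈ A ∨ wP τ (.inr (.inl b)) ∈ A ∨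
      wP τ (.inr (.inr (a, b))) ∈ A := by
    intro a b
    have hpath : IsPathThrough (GN τ) (τ (.inl a)) [τ (.inr (.inr (a, b)))]
        (τ (.inr (.inl b))) := by
      constructor
      · simp
      · simp only [List.cons_append, List.nil_append, List.isChain_cons_cons,
          List.isChain_singleton, and_true]
        exact ⟨(GN_adj τ _ _).mpr rfl, (GN_adj τ _ _).mpr rfl⟩
    rcases exists_of_cover (GN τ) A hA hpath with h | h | ⟨v, hv, h⟩
    · exact Or.inl h
    · exact Or.inr (Or.inl h)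
    · rw [List.mem_singleton] at hv
      subst hv
      exact Or.inr (Or.inr h)
  obtain ⟨a0, ha0⟩ : ∃ a0 : Fin p, ∀ a, a ≠ a0 → wP τ (.inl a) ∈ A := by
    by_cases h : ∀ a, wP τ (.inl a) ∈ A
    · exact ⟨⟨0, hp⟩, fun a _ => h a⟩
    · push Not at h
      obtain ⟨a0, h0⟩ := h
      exact ⟨a0, fun a ha => (F1 a a0 ha).resolve_right h0⟩
  obtain ⟨b0, hb0⟩ : ∃ b0 : Fin p, ∀ b, b ≠ b0 → wP τ (.inr (.inl b)) ∈ A := by
    by_cases h : ∀ b, wP τ (.inr (.inl b)) ∈ A
    · exact ⟨⟨0, hp⟩, fun b _ => h b⟩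
    · push Not at h
      obtain ⟨b0, h0⟩ := h
      exact ⟨b0, fun b hb => (F2 b b0 hb).resolve_right h0⟩
  rcases F3 a0 b0 with h | h | h
  · refine le_trans ?_ (card_le_inter τ A
      (Finset.disjSum Finset.univ (Finset.disjSum (Finset.univ.erase b0) ∅)) ?_)
    · rw [Finset.card_disjSum, Finset.card_disjSum, Finset.card_erase_of_mem (Finset.mem_univ _),
        Finset.card_univ, Fintype.card_fin, Finset.card_empty]
      omega
    · rintro (a | b | s) hv
      · by_cases haa : a = a0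
        · rw [haa]; exact h
        · exact ha0 a haa
      · simp at hv
        exact hb0 b hv
      · simp at hv
  · refine le_trans ?_ (card_le_inter τ A
      (Finset.disjSum (Finset.univ.erase a0) (Finset.disjSum Finset.univ ∅)) ?_)
    · rw [Finset.card_disjSum, Finset.card_disjSum, Finset.card_erase_of_mem (Finset.mem_univ _),
        Finset.card_univ, Fintype.card_fin, Finset.card_empty]
      omega
    · rintro (a | b | s) hv
      · simp at hv
        exact ha0 a hv
      · by_cases hbb : b = b0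
        · rw [hbb]; exact h
        · exact hb0 b hbb
      · simp at hv
  · refine le_trans ?_ (card_le_inter τ A
      (Finset.disjSum (Finset.univ.erase a0) (Finset.disjSum (Finset.univ.erase b0)
        {(a0, b0)})) ?_)
    · rw [Finset.card_disjSum, Finset.card_disjSum, Finset.card_erase_of_mem (Finset.mem_univ _),
        Finset.card_erase_of_mem (Finset.mem_univ _),
        Finset.card_univ, Fintype.card_fin, Finset.card_singleton]
      omega
    · rintro (a | b | s) hv
      · simp at hv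
        exact ha0 a hv
      · simp at hv
        exact hb0 b hv
      · simp at hv
        rw [hv]
        exact h

/-- a chain that starts in a set `R`, whose neighbourhood is contained in `R` and in the vertices
`v` with `y_v ∈ A`, and that ends outside of both, meets the latter -/
lemma chain_hits {n : ℕ} (G : SimpleGraph (Fin n)) (A : Finset (Fin n ⊕ₗ Fin n))
    (R : Set (Fin n)) (hR : ∀ u ∈ R, ∀ v, G.Adj u v → v ∈ R ∨ yv v ∈ A) (j : Fin n)
    (hj : j ∉ R) (hj' : yv j ∉ A) : ∀ (l : List (Fin n)) (i : Fin n), i ∈ R →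
    (i :: (l ++ [j])).IsChain G.Adj → ∃ v ∈ l, yv v ∈ A := by
  intro l
  induction l with
  | nil =>
    intro i hi h
    have hij : G.Adj i j := by simpa using h
    rcases hR i hi j hij with h1 | h1
    · exact absurd h1 hj
    · exact absurd h1 hj'
  | cons v l ih =>
    intro i hi h
    rw [List.cons_append, List.isChain_cons_cons] at h
    rcases hR i hi v h.1 with h1 | h1
    · obtain ⟨u, hu, hu'⟩ := ih v h1 h.2
      exact ⟨u, List.mem_cons_of_mem _ hu, hu'⟩
    · exact ⟨v, List.mem_cons_self, h1⟩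

open Classical in
/-- the set of the variables `x_v` with `P v` and `y_v` with `Q v` -/
noncomputable def mkA (τ : VP p ≃ Fin N) (P Q : VP p → Prop) : Finset (Fin N ⊕ₗ Fin N) :=
  Finset.univ.filter fun z => (∃ v, P v ∧ z = xv (τ v)) ∨ (∃ v, Q v ∧ z = yv (τ v))

lemma xv_mem_mkA (τ : VP p ≃ Fin N) (P Q : VP p → Prop) (v : VP p) :
    xv (τ v) ∈ mkA τ P Q ↔ P v := by
  classical
  unfold mkA
  rw [Finset.mem_filter]
  constructor
  · rintro ⟨_, ⟨u, hu, h⟩ | ⟨u, _, h⟩⟩
    · rw [τ.injective (xv_inj h)]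
      exact hu
    · exact absurd h (xv_ne_yv _ _)
  · intro h
    exact ⟨Finset.mem_univ _, Or.inl ⟨v, h, rfl⟩⟩

lemma yv_mem_mkA (τ : VP p ≃ Fin N) (P Q : VP p → Prop) (v : VP p) :
    yv (τ v) ∈ mkA τ P Q ↔ Q v := by
  classical
  unfold mkA
  rw [Finset.mem_filter]
  constructor
  · rintro ⟨_, ⟨u, _, h⟩ | ⟨u, hu, h⟩⟩
    · exact absurd h.symm (xv_ne_yv _ _)
    · rw [τ.injective (yv_inj h)]
      exact hu
  · intro h
    exact ⟨Finset.mem_univ _, Or.inr ⟨v, h, rfl⟩⟩

/-- all the `x_v` but one form a cover -/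
lemma cover_x {K : Type*} [Field K] (τ : VP p ≃ Fin N) (c : VP p) :
    genericInitialIdeal K (GN τ) ≤ varIdeal K (mkA τ (fun v => v ≠ c) (fun _ => False)) := by
  apply le_varIdeal
  intro i j l h
  obtain ⟨u, rfl⟩ := τ.surjective i
  obtain ⟨v, rfl⟩ := τ.surjective j
  rw [xv_mem_mkA, xv_mem_mkA]
  by_cases hu : u = c
  · right; left
    rintro rfl
    have h1 := h.1
    rw [hu] at h1
    simp at h1
  · exact Or.inl hu

/-- the condition on the `y_v` for the second kind of covers -/
def Qab (a b : Fin p) : VP p → Prop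
  | .inl a' => a' ≠ a
  | .inr (.inl b') => b' ≠ b
  | .inr (.inr s) => s = (a, b)

/-- the second kind of covers -/
lemma cover_s {K : Type*} [Field K] (τ : VP p ≃ Fin N) (a b : Fin p) :
    genericInitialIdeal K (GN τ) ≤ varIdeal K
      (mkA τ (fun v => v ≠ .inl a ∧ v ≠ .inr (.inl b)) (Qab a b)) := by
  apply le_varIdeal
  intro i j l h
  obtain ⟨u, rfl⟩ := τ.surjective i
  obtain ⟨v, rfl⟩ := τ.surjective j
  rw [xv_mem_mkA, xv_mem_mkA]
  by_cases hu : u ≠ .inl a ∧ u ≠ .inr (.inl b)
  · exact Or.inl hu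
  by_cases hv : v ≠ .inl a ∧ v ≠ .inr (.inl b)
  · exact Or.inr (Or.inl hv)
  right; right
  have huv : u ≠ v := by
    rintro rfl
    have h1 := h.1
    simp at h1
  -- the two closed sets
  let Ra : Set (Fin N) := {i | ∃ v : VP p, i = τ v ∧ (v = .inl a ∨ ∃ b', b' ≠ b ∧
    v = .inr (.inr (a, b')))}
  let Rb : Set (Fin N) := {i | ∃ v : VP p, i = τ v ∧ (v = .inr (.inl b) ∨ ∃ a', a' ≠ a ∧
    v = .inr (.inr (a', b)))}
  have hRa : ∀ u ∈ Ra, ∀ v, (GN τ).Adj u v → v ∈ Ra ∨
      yv v ∈ mkA τ (fun v => v ≠ .inl a ∧ v ≠ .inr (.inl b)) (Qab a b) := by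
    rintro _ ⟨u, rfl, hu⟩ v' hadj
    obtain ⟨v, rfl⟩ := τ.surjective v'
    rw [GN_adj] at hadj
    rw [yv_mem_mkA]
    rcases hu with rfl | ⟨b', hb', rfl⟩
    · rcases v with a' | b' | ⟨s1, s2⟩
      · right
        exact fun h => hadj h.symm
      · exact absurd hadj id
      · have hs : s1 = a := hadj
        subst hs
        by_cases hb : s2 = b
        · right
          show (s1, s2) = (s1, b)
          rw [hb]
        · left
          exact ⟨_, rfl, Or.inr ⟨s2, hb, rfl⟩⟩
    · rcases v with a' | b'' | s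
      · left
        have : a = a' := hadj
        subst this
        exact ⟨_, rfl, Or.inl rfl⟩
      · right
        have : b' = b'' := hadj
        subst this
        exact hb'
      · exact absurd hadj id
  have hRb : ∀ u ∈ Rb, ∀ v, (GN τ).Adj u v → v ∈ Rb ∨
      yv v ∈ mkA τ (fun v => v ≠ .inl a ∧ v ≠ .inr (.inl b)) (Qab a b) := by
    rintro _ ⟨u, rfl, hu⟩ v' hadj
    obtain ⟨v, rfl⟩ := τ.surjective v'
    rw [GN_adj] at hadj
    rw [yv_mem_mkA]
    rcases hu with rfl | ⟨a', ha', rfl⟩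
    · rcases v with a' | b' | ⟨s1, s2⟩
      · exact absurd hadj id
      · right
        exact fun h => hadj h.symm
      · have hs : s2 = b := hadj
        subst hs
        by_cases ha : s1 = a
        · right
          show (s1, s2) = (a, s2)
          rw [ha]
        · left
          exact ⟨_, rfl, Or.inr ⟨s1, ha, rfl⟩⟩
    · rcases v with a'' | b'' | s
      · right
        have : a' = a'' := hadj
        subst this
        exact ha'
      · left
        have : b = b'' := hadj
        subst this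
        exact ⟨_, rfl, Or.inl rfl⟩
      · exact absurd hadj id
  have hmem : ∀ v : VP p, ¬ (v ≠ .inl a ∧ v ≠ .inr (.inl b)) → v = .inl a ∨ v = .inr (.inl b) := by
    intro v hv
    by_contra hcon
    push Not at hcon
    exact hv hcon
  rcases hmem u hu with rfl | rfl
  · rcases hmem v hv with rfl | rfl
    · exact absurd rfl huv
    · refine chain_hits (GN τ) _ Ra hRa _ ?_ ?_ l _ ⟨_, rfl, Or.inl rfl⟩ h.2
      · rintro ⟨v, hv1, hv2⟩
        rw [← τ.injective hv1] at hv2
        simp at hv2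
      · rw [yv_mem_mkA]
        exact fun h => h rfl
  · rcases hmem v hv with rfl | rfl
    · refine chain_hits (GN τ) _ Rb hRb _ ?_ ?_ l _ ⟨_, rfl, Or.inl rfl⟩ h.2
      · rintro ⟨v, hv1, hv2⟩
        rw [← τ.injective hv1] at hv2
        simp at hv2
      · rw [yv_mem_mkA]
        exact fun h => h rfl
    · exact absurd rfl huv

/-- the regularity of `gin(J_G)^((2p-1)m)`, for `G = G_p`, is at least `m` times the number of
vertices -/
theorem le_regularity_GN (K : Type*) [Field K] (hp : 1 ≤ p) (τ : VP p ≃ Fin N) (m : ℕ) :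
    (((N * m : ℕ) : ℝ) : EReal) ≤
      regularity (symbolicPower (genericInitialIdeal K (GN τ)) ((2 * p - 1) * m)) := by
  have h := le_regularity' (genericInitialIdeal K (GN τ)) (ginLists (GN τ)) (gin_eq K (GN τ))
    (WP τ) (2 * p - 1) (fun A hA => cover_card hp τ A hA) ?_ m
  · rw [WP_card] at h
    exact h
  intro z hz
  rw [WP, Finset.mem_map] at hz
  obtain ⟨v, _, rfl⟩ := hz
  rcases v with a | b | ⟨a, b⟩
  · refine ⟨mkA τ (fun v => v ≠ .inr (.inl ⟨0, hp⟩)) (fun _ => False), ?_, ?_, cover_x τ _⟩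
    · exact (xv_mem_mkA τ _ _ _).mpr (by simp)
    · refine le_trans (card_inter_le τ _
        (Finset.disjSum Finset.univ (Finset.disjSum (Finset.univ.erase ⟨0, hp⟩) ∅)) ?_) ?_
      · rintro (a' | b' | s') hv
        · simp
        · have := (xv_mem_mkA τ _ _ _).mp hv
          simpa using this
        · exact absurd ((yv_mem_mkA τ _ _ _).mp hv) id
      · rw [Finset.card_disjSum, Finset.card_disjSum,
          Finset.card_erase_of_mem (Finset.mem_univ _),
          Finset.card_univ, Fintype.card_fin, Finset.card_empty]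
        omega
  · refine ⟨mkA τ (fun v => v ≠ .inl ⟨0, hp⟩) (fun _ => False), ?_, ?_, cover_x τ _⟩
    · exact (xv_mem_mkA τ _ _ _).mpr (by simp)
    · refine le_trans (card_inter_le τ _
        (Finset.disjSum (Finset.univ.erase ⟨0, hp⟩) (Finset.disjSum Finset.univ ∅)) ?_) ?_
      · rintro (a' | b' | s') hv
        · have := (xv_mem_mkA τ _ _ _).mp hv
          simpa using this
        · simp
        · exact absurd ((yv_mem_mkA τ _ _ _).mp hv) id
      · rw [Finset.card_disjSum, Finset.card_disjSum,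
          Finset.card_erase_of_mem (Finset.mem_univ _),
          Finset.card_univ, Fintype.card_fin, Finset.card_empty]
        omega
  · refine ⟨mkA τ (fun v => v ≠ .inl a ∧ v ≠ .inr (.inl b)) (Qab a b), ?_, ?_, cover_s τ a b⟩
    · exact (yv_mem_mkA τ _ _ _).mpr rfl
    · refine le_trans (card_inter_le τ _
        (Finset.disjSum (Finset.univ.erase a) (Finset.disjSum (Finset.univ.erase b)
          {(a, b)})) ?_) ?_
      · rintro (a' | b' | s') hv
        · have := (xv_mem_mkA τ _ _ _).mp hv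
          simpa using this
        · have := (xv_mem_mkA τ _ _ _).mp hv
          simpa using this
        · have := (yv_mem_mkA τ _ _ _).mp hv
          have h2 : s' = (a, b) := this
          simp [h2]
      · rw [Finset.card_disjSum, Finset.card_disjSum,
          Finset.card_erase_of_mem (Finset.mem_univ _),
          Finset.card_erase_of_mem (Finset.mem_univ _),
          Finset.card_univ, Fintype.card_fin, Finset.card_singleton]
        omega

end Pool.Agent.Lib.MP_641f76_ag
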